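import Pool.Agent.H41.FM.Local

set_option autoImplicit false
set_option maxHeartbeats 1000000

/-!
# Four moving points: functions of four bits
-/

namespace Pool.Agent.H41.FM

/-- indicator of a bit -/
def iv (b : Bool) : ℝ := if b = true then 1 else 0

@[simp] lemma iv_true : iv true = 1 := rfl
@[simp] lemma iv_false : iv false = 0 := by simp [iv]
lemma iv_nonneg (b : Bool) : 0 ≤ iv b := by cases b <;> simp
lemma iv_not (b : Bool) : iv (!b) = 1 - iv b := by cases b <;> simp

/-- functions of four bits -/
abbrev F4 := Bool → Bool → Bool → Bool → ℝ

/-- the three vectors of bits are disjoint -/
def dj (r1 r2 r3 r4 x1 x2 x3 x4 y1 y2 y3 y4 : Bool) : Bool :=
  (r1 && x1) || (r1 && y1) || (x1 && y1) || (r2 && x2) || (r2 && y2) || (x2 && y2) ||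
    (r3 && x3) || (r3 && y3) || (x3 && y3) || (r4 && x4) || (r4 && y4) || (x4 && y4)

/-- the crossing inequalities of `H` relative to `G` -/
def Crs (G H : F4) : Prop :=
  ∀ r1 r2 r3 r4 x1 x2 x3 x4 y1 y2 y3 y4 : Bool,
    dj r1 r2 r3 r4 x1 x2 x3 x4 y1 y2 y3 y4 = false →
    G (x1 || y1) (x2 || y2) (x3 || y3) (x4 || y4) - G x1 x2 x3 x4 - G y1 y2 y3 y4 ≤
      H (r1 || (x1 || y1)) (r2 || (x2 || y2)) (r3 || (x3 || y3)) (r4 || (x4 || y4)) +
        H r1 r2 r3 r4 - H (r1 || x1) (r2 || x2) (r3 || x3) (r4 || x4) -
        H (r1 || y1) (r2 || y2) (r3 || y3) (r4 || y4)

/-- zero at the empty set and at the singletons -/
structure Z1 (H : F4) : Prop where
  z : H false false false false = 0
  a : H true false false false = 0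
  b : H false true false false = 0
  c : H false false true false = 0
  d : H false false false true = 0

/-- zero at the pairs -/
structure Z2 (G : F4) : Prop extends Z1 G where
  ab : G true true false false = 0
  ac : G true false true false = 0
  ad : G true false false true = 0
  bc : G false true true false = 0
  bd : G false true false true = 0
  cd : G false false true true = 0

lemma g_nonneg {G : F4} (hG : Z2 G) (hc : Crs G G) :
    0 ≤ G true true true false ∧ 0 ≤ G true true false true ∧ 0 ≤ G true false true true ∧
      0 ≤ G false true true true ∧
      G true true true false + G true true false true ≤ G true true true true ∧
      G true true true false + G true false true true ≤ G true true true true ∧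
      G true true true false + G false true true true ≤ G true true true true ∧
      G true true false true + G true false true true ≤ G true true true true ∧
      G true true false true + G false true true true ≤ G true true true true ∧
      G true false true true + G false true true true ≤ G true true true true := by
  obtain ⟨⟨z, a, b, c, d⟩, ab, ac, ad, bc, bd, cd⟩ := hG
  have k1 := hc true false false false false true false false false false true false rfl
  have k2 := hc true false false false false true false false false false false true rfl
  have k3 := hc true false false false false false true false false false false true rfl
  have k4 := hc false true false false false false true false false false false true rfl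
  have k5 := hc true true false false false false true false false false false true rfl
  have k6 := hc true false true false false true false false false false false true rfl
  have k7 := hc false true true false true false false false false false false true rfl
  have k8 := hc true false false true false true false false false false true false rfl
  have k9 := hc false true false true true false false false false false true false rfl
  have k10 := hc false false true true true false false false false true false false rfl
  simp only [Bool.or_false, Bool.or_true, Bool.or_self, z, a, b, c, d, ab, ac, ad, bc, bd,
    cd] at k1 k2 k3 k4 k5 k6 k7 k8 k9 k10
  refine ⟨?_, ?_, ?_, ?_, ?_, ?_, ?_, ?_, ?_, ?_⟩ <;> linarith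

/-- the inequalities for the local lemmas -/
lemma hd_of {G H : F4} (hG : Z2 G) (hH : Z1 H) (hc : Crs G H) :
    Hd (G false true true true) (G true false true true) (G true true false true)
      (G true true true false) (G true true true true)
      (H true true false false) (H true false true false) (H true false false true)
      (H false true true false) (H false true false true) (H false false true true)
      (H true true true false - G true true true false)
      (H true true false true - G true true false true)
      (H true false true true - G true false true true)
      (H false true true true - G false true true true)
      (H true true true true - G true true true true) := by
  obtain ⟨⟨z, a, b, c, d⟩, ab, ac, ad, bc, bd, cd⟩ := hG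
  obtain ⟨z', a', b', c', d'⟩ := hH
  have n1 := hc false false false false true false false false false true false false rfl
  have n2 := hc false false false false true false false false false false true false rfl
  have n3 := hc false false false false true false false false false false false true rfl
  have n4 := hc false false false false false true false false false false true false rfl
  have n5 := hc false false false false false true false false false false false true rfl
  have n6 := hc false false false false false false true false false false false true rfl
  have s1 := hc false false false false true true false false false false true false rfl
  have s2 := hc false false false false true false true false false true false false rfl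
  have s3 := hc false false false false false true true false true false false false rfl
  have s4 := hc false false false false true true true false false false false true rfl
  have s5 := hc false false false false true true false true false false true false rfl
  have s6 := hc false false false false true false true true false true false false rfl
  have s7 := hc false false false false false true true true true false false false rfl
  have p1 := hc false false false false true true false false false false true true rfl
  have p2 := hc false false false false true false true false false true false true rfl
  have p3 := hc false false false false true false false true false true true false rfl
  have t1 := hc true false false false false true false false false false true false rfl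
  have t2 := hc false true false false true false false false false false true false rfl
  have t3 := hc true false false false false false true false false false false true rfl
  have t4 := hc false true false false false false true false false false false true rfl
  have t5 := hc false false false true false true false false false false true false rfl
  have q1 := hc true false false false false true true false false false false true rfl
  have q2 := hc false true false false true false true false false false false true rfl
  have q3 := hc true false false false false true false false false false true true rfl
  have q4 := hc false true false false true false false false false false true true rfl
  have q5 := hc true false false false false false true false false true false true rfl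
  have q6 := hc false true false false false false true false true false false true rfl
  have q7 := hc true true false false false false true false false false false true rfl
  simp only [Bool.or_false, Bool.or_true, Bool.or_self, a, b, c, d, ab, ac, ad, bc, bd,
    cd, z', a', b', c', d'] at n1 n2 n3 n4 n5 n6 s1 s2 s3 s4 s5 s6 s7 p1 p2 p3 t1 t2 t3 t4 t5
  simp only [Bool.or_false, Bool.or_true, Bool.or_self, a, b, c, d, ab, ac, ad, bc, bd,
    cd, z', a', b', c', d'] at q1 q2 q3 q4 q5 q6 q7
  constructor <;> linarith

/-- the pointwise form of the prices -/
lemma pr_pt {G H : F4} (hH : Z1 H) {zab zac zad zbd pa pb pc pd r : ℝ}
    (hP : Pr (G false true true true) (G true false true true) (G true true false true)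
      (G true true true false) (G true true true true)
      (H true true false false) (H true false true false) (H true false false true)
      (H false true true false) (H false true false true) (H false false true true)
      (H true true true false - G true true true false)
      (H true true false true - G true true false true)
      (H true false true true - G true false true true)
      (H false true true true - G false true true true)
      (H true true true true - G true true true true) zab zac zad zbd pa pb pc pd r)
    (x y z t : Bool) :
    H x y z t ≤ pa * iv x + pb * iv y + pc * iv z + pd * iv t + (zab + r) * iv (x && y) +
      zac * iv (x && z) + zad * iv (x && t) + zbd * iv (y && t) := by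
  obtain ⟨na, nb, nc, nd, eab, eac, ead, ebc, ebd, ecd, eabc, eabd, eacd, ebcd, eA⟩ := hP
  obtain ⟨z', a', b', c', d'⟩ := hH
  cases x <;> cases y <;> cases z <;> cases t <;>
    simp only [Bool.and_true, Bool.and_false, Bool.and_self, Bool.false_and, Bool.true_and,
      iv_true, iv_false] <;> linarith

section sums

variable {ι : Type*}

/-- the summed form of the prices -/
lemma pr_sum {G H : F4} (hH : Z1 H) {zab zac zad zbd pa pb pc pd r : ℝ}
    (hP : Pr (G false true true true) (G true false true true) (G true true false true)
      (G true true true false) (G true true true true)
      (H true true false false) (H true false true false) (H true false false true)
      (H false true true false) (H false true false true) (H false false true true)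
      (H true true true false - G true true true false)
      (H true true false true - G true true false true)
      (H true false true true - G true false true true)
      (H false true true true - G false true true true)
      (H true true true true - G true true true true) zab zac zad zbd pa pb pc pd r)
    (I : Finset ι) (w : ι → ℝ) (hw : ∀ T ∈ I, 0 ≤ w T) (x y z t : ι → Bool) :
    ∑ T ∈ I, w T * H (x T) (y T) (z T) (t T) ≤
      pa * ∑ T ∈ I, w T * iv (x T) + pb * ∑ T ∈ I, w T * iv (y T) +
      pc * ∑ T ∈ I, w T * iv (z T) + pd * ∑ T ∈ I, w T * iv (t T) +
      (zab + r) * ∑ T ∈ I, w T * iv (x T && y T) + zac * ∑ T ∈ I, w T * iv (x T && z T) +
      zad * ∑ T ∈ I, w T * iv (x T && t T) + zbd * ∑ T ∈ I, w T * iv (y T && t T) := by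
  simp only [Finset.mul_sum, ← Finset.sum_add_distrib]
  apply Finset.sum_le_sum
  intro T hT
  have h1 := mul_le_mul_of_nonneg_left (pr_pt hH hP (x T) (y T) (z T) (t T)) (hw T hT)
  refine h1.trans (le_of_eq ?_)
  ring

end sums

end Pool.Agent.H41.FM
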