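import Pool.Agent.H41.FM.Bits

set_option autoImplicit false
set_option maxHeartbeats 1000000

/-!
# Four moving points: the numerical core

`J` is the set of fixed points, `w j` the weights of the collisions at the fixed point `j`,
`x j T, ...` the bits of the collision `T`, and `wg` the weights of the other collisions.
-/

namespace Pool.Agent.H41.FM

open Finset

section core

variable {ι κ : Type*}

/-- all data for ordered degrees -/
structure Dat (G : F4) (J : Finset κ) (H : κ → F4) (I : Finset ι) (w : κ → ι → ℝ)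
    (x y z t : κ → ι → Bool) (wg : ι → ℝ) (xg yg zg tg : ι → Bool) (d1 d2 d3 d4 La Lb Lc Ld : ℝ) :
    Prop where
  hG : Z2 G
  hGG : Crs G G
  hH : ∀ j ∈ J, Z1 (H j)
  hGH : ∀ j ∈ J, Crs G (H j)
  w0 : ∀ j ∈ J, ∀ T ∈ I, 0 ≤ w j T
  wg0 : ∀ T ∈ I, 0 ≤ wg T
  ma : ∀ j ∈ J, ∑ T ∈ I, w j T * iv (x j T) = d1
  mb : ∀ j ∈ J, ∑ T ∈ I, w j T * iv (y j T) = d2
  mc : ∀ j ∈ J, ∑ T ∈ I, w j T * iv (z j T) = d3
  md : ∀ j ∈ J, ∑ T ∈ I, w j T * iv (t j T) = d4
  pab : ∑ T ∈ I, wg T * iv (xg T && yg T) + ∑ j ∈ J, ∑ T ∈ I, w j T * iv (x j T && y j T) = d1 + d2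
  pac : ∑ T ∈ I, wg T * iv (xg T && zg T) + ∑ j ∈ J, ∑ T ∈ I, w j T * iv (x j T && z j T) = d1 + d3
  pad : ∑ T ∈ I, wg T * iv (xg T && tg T) + ∑ j ∈ J, ∑ T ∈ I, w j T * iv (x j T && t j T) = d1 + d4
  pbd : ∑ T ∈ I, wg T * iv (yg T && tg T) + ∑ j ∈ J, ∑ T ∈ I, w j T * iv (y j T && t j T) = d2 + d4
  d4' : 0 ≤ d4
  d34 : d4 ≤ d3
  d23 : d3 ≤ d2
  d12 : d2 ≤ d1
  l4 : ∑ j ∈ J, (H j true true true true - G true true true true) + 2 * G true true true true ≤
    La + Lb + Lc + Ld
  l3 : ∑ j ∈ J, (H j true true true false - G true true true false) + G true true true false +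
    G true true true true ≤ La + Lb + Lc
  l2 : ∑ j ∈ J, H j true true false false + G true true true true ≤ La + Lb
  la : G true true true true - G false true true true ≤ La
  lb : G true true true true - G true false true true ≤ Lb

variable {G : F4} {J : Finset κ} {H : κ → F4} {I : Finset ι} {w : κ → ι → ℝ}
  {x y z t : κ → ι → Bool} {wg : ι → ℝ} {xg yg zg tg : ι → Bool}
  {d1 d2 d3 d4 La Lb Lc Ld : ℝ}

/-- the collisions away from the fixed points -/
lemma gen_bound (D : Dat G J H I w x y z t wg xg yg zg tg d1 d2 d3 d4 La Lb Lc Ld)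
    {zab zac zad zbd : ℝ} (h1 : 0 ≤ zab) (h2 : 0 ≤ zac) (h3 : 0 ≤ zad) (h4 : 0 ≤ zbd)
    (e1 : G true true true false ≤ zab + zac) (e2 : G true true false true ≤ zab + zad + zbd)
    (e3 : G true false true true ≤ zac + zad) (e4 : G false true true true ≤ zbd)
    (e5 : G true true true true ≤ zab + zac + zad + zbd) :
    ∑ T ∈ I, wg T * G (xg T) (yg T) (zg T) (tg T) ≤
      zab * ∑ T ∈ I, wg T * iv (xg T && yg T) + zac * ∑ T ∈ I, wg T * iv (xg T && zg T) +
      zad * ∑ T ∈ I, wg T * iv (xg T && tg T) + zbd * ∑ T ∈ I, wg T * iv (yg T && tg T) := by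
  obtain ⟨⟨g0, ga, gb, gc, gd⟩, gab, gac, gad, gbc, gbd, gcd⟩ := D.hG
  simp only [mul_sum, ← sum_add_distrib]
  apply sum_le_sum
  intro T hT
  have key : ∀ p q r s : Bool, G p q r s ≤ zab * iv (p && q) + zac * iv (p && r) +
      zad * iv (p && s) + zbd * iv (q && s) := by
    intro p q r s
    cases p <;> cases q <;> cases r <;> cases s <;>
      simp only [Bool.and_true, Bool.and_false, Bool.and_self, iv_true, iv_false] <;> linarith
  have h := mul_le_mul_of_nonneg_left (key (xg T) (yg T) (zg T) (tg T)) (D.wg0 T hT)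
  refine h.trans (le_of_eq ?_)
  ring

/-- assembly -/
lemma assemble (D : Dat G J H I w x y z t wg xg yg zg tg d1 d2 d3 d4 La Lb Lc Ld)
    {zab zac zad zbd s kap : ℝ} (h1 : 0 ≤ zab) (h2 : 0 ≤ zac) (h3 : 0 ≤ zad) (h4 : 0 ≤ zbd)
    (e1 : G true true true false ≤ zab + zac) (e2 : G true true false true ≤ zab + zad + zbd)
    (e3 : G true false true true ≤ zac + zad) (e4 : G false true true true ≤ zbd)
    (e5 : G true true true true ≤ zab + zac + zad + zbd)
    (hs : 0 ≤ s) (hs2 : s ≤ d2 - d3)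
    (hloc : ∃ k : κ → ℝ, (∑ j ∈ J, k j = kap) ∧ ∀ j ∈ J,
      ∑ T ∈ I, w j T * H j (x j T) (y j T) (z j T) (t j T) ≤
        d4 * (H j true true true true - G true true true true) +
        (d3 - d4) * (H j true true true false - G true true true false) +
        s * H j true true false false +
        zab * ∑ T ∈ I, w j T * iv (x j T && y j T) + zac * ∑ T ∈ I, w j T * iv (x j T && z j T) +
        zad * ∑ T ∈ I, w j T * iv (x j T && t j T) + zbd * ∑ T ∈ I, w j T * iv (y j T && t j T) -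
        k j)
    (hbud : zab * (d1 + d2) + zac * (d1 + d3) + zad * (d1 + d4) + zbd * (d2 + d4) - kap ≤
      2 * d4 * G true true true true +
      (d3 - d4) * (G true true true false + G true true true true) +
      s * G true true true true + (d1 - d3 - s) * (G true true true true - G false true true true) +
      (d2 - d3 - s) * (G true true true true - G true false true true)) :
    ∑ T ∈ I, wg T * G (xg T) (yg T) (zg T) (tg T) +
      ∑ j ∈ J, ∑ T ∈ I, w j T * H j (x j T) (y j T) (z j T) (t j T) ≤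
      d1 * La + d2 * Lb + d3 * Lc + d4 * Ld := by
  obtain ⟨k, hk, hl⟩ := hloc
  have hg := gen_bound D h1 h2 h3 h4 e1 e2 e3 e4 e5
  have hsum := sum_le_sum hl
  simp only [sum_sub_distrib, sum_add_distrib, ← mul_sum] at hsum
  rw [hk] at hsum
  have l4 := mul_le_mul_of_nonneg_left D.l4 D.d4'
  have l3 := mul_le_mul_of_nonneg_left D.l3 (sub_nonneg.2 D.d34)
  have l2 := mul_le_mul_of_nonneg_left D.l2 hs
  have la := mul_le_mul_of_nonneg_left D.la (show 0 ≤ d1 - d3 - s by linarith [D.d12])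
  have lb := mul_le_mul_of_nonneg_left D.lb (show 0 ≤ d2 - d3 - s by linarith)
  have e : d1 * La + d2 * Lb + d3 * Lc + d4 * Ld = d4 * (La + Lb + Lc + Ld) +
      (d3 - d4) * (La + Lb + Lc) + s * (La + Lb) + (d1 - d3 - s) * La + (d2 - d3 - s) * Lb := by
    ring
  rw [e]
  have qab := congrArg (fun u => zab * u) D.pab
  have qac := congrArg (fun u => zac * u) D.pac
  have qad := congrArg (fun u => zad * u) D.pad
  have qbd := congrArg (fun u => zbd * u) D.pbd
  simp only [mul_add] at qab qac qad qbd l4 l3 l2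
  simp only [sum_sub_distrib] at l4 l3
  simp only [mul_sub] at l4 l3
  nlinarith [hg, hsum, l4, l3, l2, la, lb, hbud, qab, qac, qad, qbd]

end core

end Pool.Agent.H41.FM
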