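import Pool.Agent.H41.FM.Merge

set_option autoImplicit false
set_option maxHeartbeats 1000000

/-! Reduction of marks of types `A`, `A` and of types `A`, `B`, `A + B`. -/

namespace Pool.Agent.H41.FM.Red

open Pool.Agent.H20 Pool.Agent.H20.MG Pool.Agent.H41.FM

universe w


section lin

variable {W : Type w} [Fintype W] [DecidableEq W]

/-- the cut function of a pair -/
noncomputable def cut2 (i j : W) (T : Finset W) : ℝ := if (i ∈ T ↔ j ∈ T) then 0 else 1

lemma LD_add (F G c : Finset W → ℝ) (ψ : W → ℝ) :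
    LD (fun T => F T + G T) c ψ = LD F c ψ + LD G c ψ := by
  unfold LD
  have e1 : ∑ x, (F {x} + G {x}) * ψ x = ∑ x, F {x} * ψ x + ∑ x, G {x} * ψ x := by
    rw [← Finset.sum_add_distrib]
    exact Finset.sum_congr rfl fun x _ => by ring
  have e2 : ∑ T, (F T + G T) * c T = ∑ T, F T * c T + ∑ T, G T * c T := by
    rw [← Finset.sum_add_distrib]
    exact Finset.sum_congr rfl fun x _ => by ring
  rw [e1, e2]
  ring

lemma LD_smul (a : ℝ) (F c : Finset W → ℝ) (ψ : W → ℝ) :
    LD (fun T => a * F T) c ψ = a * LD F c ψ := by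
  unfold LD
  have e1 : ∑ x, (a * F {x}) * ψ x = a * ∑ x, F {x} * ψ x := by
    rw [Finset.mul_sum]
    exact Finset.sum_congr rfl fun x _ => by ring
  have e2 : ∑ T, (a * F T) * c T = a * ∑ T, F T * c T := by
    rw [Finset.mul_sum]
    exact Finset.sum_congr rfl fun x _ => by ring
  rw [e1, e2]
  ring

lemma LD_cut2 {c : Finset W → ℝ} {ψ : W → ℝ} (hc : NCls c ψ) (hW : 3 ≤ Fintype.card W)
    (i j : W) : LD (cut2 i j) c ψ = 0 := by
  by_cases hij : i = j
  · subst hij
    simp [LD, cut2]
  have h3 : ∃ k, k ≠ i ∧ k ≠ j := by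
    have h1 : 0 < ((Finset.univ.erase i).erase j).card := by
      rw [Finset.card_erase_of_mem (by simp [Ne.symm hij]),
        Finset.card_erase_of_mem (Finset.mem_univ _), Finset.card_univ]
      omega
    obtain ⟨k, hk⟩ := Finset.card_pos.mp h1
    simp only [Finset.mem_erase, Finset.mem_univ, and_true] at hk
    exact ⟨k, hk.2, hk.1⟩
  have h1 := hc.sep hij h3
  have h2 := hc.sep (Ne.symm hij) (by obtain ⟨k, h1, h2⟩ := h3; exact ⟨k, h2, h1⟩)
  have e1 : ∑ T, cut2 i j T * c T = (ψ i + ψ j) + (ψ j + ψ i) := by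
    rw [← h1]
    rw [← h2, ← Finset.sum_add_distrib]
    apply Finset.sum_congr rfl
    intro T _
    unfold cut2
    by_cases hi : i ∈ T <;> by_cases hj : j ∈ T <;> simp [hi, hj]
  have e2 : ∑ x, cut2 i j {x} * ψ x = ψ i + ψ j := by
    have : ∀ x : W, cut2 i j {x} * ψ x = (if x = i then ψ x else 0) +
        (if x = j then ψ x else 0) := by
      intro x
      unfold cut2
      by_cases hi : x = i
      · subst hi
        have hj : ¬ (j = x) := fun h => hij h.symm
        simp [hj, hij]
      · by_cases hj : x = j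
        · subst hj
          have hi' : ¬ (i = x) := fun h => hi h.symm
          simp [hi', hi]
        · have hi' : ¬ (i = x) := fun h => hi h.symm
          have hj' : ¬ (j = x) := fun h => hj h.symm
          simp [hi', hj', hi, hj]
    rw [Finset.sum_congr rfl (fun x _ => this x), Finset.sum_add_distrib, Finset.sum_ite_eq',
      Finset.sum_ite_eq', if_pos (Finset.mem_univ _), if_pos (Finset.mem_univ _)]
  unfold LD
  rw [e1, e2]
  ring

/-- the cut function of a list of weights -/
noncomputable def cutF (e : ℕ → W) (l : List (ℕ × ℕ × ℝ)) (T : Finset W) : ℝ :=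
  (l.map (fun x => if (e x.1 ∈ T ↔ e x.2.1 ∈ T) then 0 else x.2.2)).sum

lemma LD_cutF {c : Finset W → ℝ} {ψ : W → ℝ} (hc : NCls c ψ) (hW : 3 ≤ Fintype.card W)
    (e : ℕ → W) (l : List (ℕ × ℕ × ℝ)) : LD (cutF e l) c ψ = 0 := by
  induction l with
  | nil => simp [LD, cutF]
  | cons x l ih =>
    have h : cutF e (x :: l) = fun T => x.2.2 * cut2 (e x.1) (e x.2.1) T + cutF e l T := by
      funext T
      unfold cutF cut2
      rw [List.map_cons, List.sum_cons]
      split_ifs <;> ring
    rw [h, LD_add, LD_smul, LD_cut2 hc hW, ih]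
    ring

lemma cutF_compl (e : ℕ → W) (l : List (ℕ × ℕ × ℝ)) (T : Finset W) :
    cutF e l Tᶜ = cutF e l T := by
  unfold cutF
  congr 1
  apply List.map_congr_left
  intro x _
  have h : (e x.1 ∈ Tᶜ ↔ e x.2.1 ∈ Tᶜ) ↔ (e x.1 ∈ T ↔ e x.2.1 ∈ T) := by
    simp only [Finset.mem_compl]
    tauto
  simp only [h]

/-- A function which is dominated by a cut function with equality at the points. -/
theorem LD_nonneg_of_cutF {F c : Finset W → ℝ} {ψ : W → ℝ} (hc : NCls c ψ)
    (hW : 3 ≤ Fintype.card W) (e : ℕ → W) (l : List (ℕ × ℕ × ℝ)) {N : ℝ} (hN : 0 < N)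
    (h1 : ∀ T, N * F T ≤ cutF e l T) (h2 : ∀ x, N * F {x} = cutF e l {x}) : 0 ≤ LD F c ψ := by
  have h3 : LD (fun T => N * F T) c ψ = N * LD F c ψ := LD_smul N F c ψ
  have h4 := LD_cutF hc hW e l
  have h5 : LD (cutF e l) c ψ ≤ LD (fun T => N * F T) c ψ := by
    unfold LD
    have e1 : ∑ x, cutF e l {x} * ψ x = ∑ x, N * F {x} * ψ x :=
      Finset.sum_congr rfl fun x _ => by rw [h2]
    have e2 : ∑ T, N * F T * c T ≤ ∑ T, cutF e l T * c T :=
      Finset.sum_le_sum fun T _ => mul_le_mul_of_nonneg_right (h1 T) (hc.nonneg T)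
    rw [e1]
    linarith
  rw [h3, h4] at h5
  by_contra h
  push Not at h
  have := mul_neg_of_pos_of_neg hN h
  linarith

end lin


/-- Disjoint subsets of `G` of the same size can be exchanged. -/
def Exch {V : Type} [DecidableEq V] (f : Finset V → ℝ) (G : Finset V) : Prop :=
  ∀ S Y Z : Finset V, Y ⊆ G → Z ⊆ G → Disjoint S Y → Disjoint S Z → Y.card = Z.card →
    f (S ∪ Y) = f (S ∪ Z)

section half

variable {V : Type} [Fintype V] [DecidableEq V]

/-- the basic inequality -/
lemma half {f : Finset V → ℝ} (hf : EF f) {G : Finset V} (hG : Exch f G) {S Y Z : Finset V}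
    (hY : Y ⊆ G) (hZ : Z ⊆ G) (hSY : Disjoint S Y) (hSZ : Disjoint S Z) (hd : Disjoint Y Z)
    (hYZ : Y.card = Z.card) :
    2 * f (S ∪ Y) - f S - f (S ∪ (Y ∪ Z)) ≤ 2 * f Y - f (Y ∪ Z) := by
  have h1 := hf.ineq S Y Z hSY hSZ hd
  have h2 := hG S Y Z hY hZ hSY hSZ hYZ
  have h3 := hG ∅ Y Z hY hZ (Finset.disjoint_empty_left _)
    (Finset.disjoint_empty_left _) hYZ
  rw [Finset.empty_union, Finset.empty_union] at h3
  rw [Finset.union_assoc] at h1
  linarith

end half

section tri

variable {V W : Type} [Fintype V] [Fintype W] [DecidableEq V] [DecidableEq W]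

/-- all marks at `i` and `j` go to `k` -/
def mvk (i j k : W) (π : V → W) (v : V) : W := if π v = i ∨ π v = j then k else π v

/-- the marks at `k` go to `i` and `j` -/
def spk (i j k : W) (C : Finset V) (π : V → W) (v : V) : W :=
  if π v = k then (if v ∈ C then i else j) else π v

/-- **Three marks of types `A`, `B`, `A + B`.** -/
theorem tri {c : Finset W → ℝ} {ψ : W → ℝ} (hc : NCls c ψ) (hW : 3 ≤ Fintype.card W)
    {f : Finset V → ℝ} (hf : EF f) {G : Finset V} (hG : Exch f G) (π : V → W) {i j k : W}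
    (hij : i ≠ j) (hik : i ≠ k) (hjk : j ≠ k) (hi : fib π {i} ⊆ G) (hj : fib π {j} ⊆ G)
    (hk : fib π {k} ⊆ G) {C : Finset V} (hC : C ⊆ fib π {k})
    (hCi : C.card = (fib π {i}).card)
    (hsum : (fib π {i}).card + (fib π {j}).card = (fib π {k}).card) :
    LD (fun T => f (fib (mvk i j k π) T)) c ψ + LD (fun T => f (fib (spk i j k C π) T)) c ψ ≤
      2 * LD (fun T => f (fib π T)) c ψ := by
  set A := fib π {i} with hA
  set B := fib π {j} with hB
  set R := fib π {k} with hR
  set C' := R \ C with hC'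
  have hRC : C ∪ C' = R := Finset.union_sdiff_of_subset hC
  have hCC' : Disjoint C C' := Finset.disjoint_sdiff
  have hC'c : C'.card = B.card := by
    rw [hC', Finset.card_sdiff_of_subset hC]
    omega
  have hAB : Disjoint A B := fib_disjoint π (Finset.disjoint_singleton.mpr hij)
  have hAR : Disjoint A R := fib_disjoint π (Finset.disjoint_singleton.mpr hik)
  have hBR : Disjoint B R := fib_disjoint π (Finset.disjoint_singleton.mpr hjk)
  have hCG : C ⊆ G := hC.trans hk
  have hC'R : C' ⊆ R := Finset.sdiff_subset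
  have hC'G : C' ⊆ G := hC'R.trans hk
  have hAC : Disjoint A C := Finset.disjoint_of_subset_right hC hAR
  have hAC' : Disjoint A C' := Finset.disjoint_of_subset_right hC'R hAR
  have hBC : Disjoint B C := Finset.disjoint_of_subset_right hC hBR
  have hBC' : Disjoint B C' := Finset.disjoint_of_subset_right hC'R hBR
  have hABG : A ∪ B ⊆ G := Finset.union_subset hi hj
  have hABc : (A ∪ B).card = R.card := by
    rw [Finset.card_union_of_disjoint hAB]; exact hsum
  have hABR : Disjoint (A ∪ B) R := Finset.disjoint_union_left.mpr ⟨hAR, hBR⟩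
  set Ki : ℝ := 2 * f A - f (A ∪ C) with hKi
  set Kj : ℝ := 2 * f B - f (B ∪ C') with hKj
  set Kk : ℝ := 2 * f R - f (R ∪ (A ∪ B)) with hKk
  -- the rest of a set
  set S : Finset W → Finset V := fun T => fib π (((T.erase i).erase j).erase k) with hS
  have hmS : ∀ T v, v ∈ S T ↔ π v ∈ T ∧ π v ≠ i ∧ π v ≠ j ∧ π v ≠ k := by
    intro T v
    rw [hS]
    change v ∈ fib π (((T.erase i).erase j).erase k) ↔ _
    rw [mem_fib]
    simp only [Finset.mem_erase]
    tauto
  have hmA : ∀ v, v ∈ A ↔ π v = i := fun v => by rw [hA, mem_fib, Finset.mem_singleton]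
  have hmB : ∀ v, v ∈ B ↔ π v = j := fun v => by rw [hB, mem_fib, Finset.mem_singleton]
  have hmR : ∀ v, v ∈ R ↔ π v = k := fun v => by rw [hR, mem_fib, Finset.mem_singleton]
  have hSA : ∀ T, Disjoint (S T) A := by
    intro T
    rw [Finset.disjoint_left]
    intro v hv hv'
    exact ((hmS T v).mp hv).2.1 ((hmA v).mp hv')
  have hSB : ∀ T, Disjoint (S T) B := by
    intro T
    rw [Finset.disjoint_left]
    intro v hv hv'
    exact ((hmS T v).mp hv).2.2.1 ((hmB v).mp hv')
  have hSR : ∀ T, Disjoint (S T) R := by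
    intro T
    rw [Finset.disjoint_left]
    intro v hv hv'
    exact ((hmS T v).mp hv).2.2.2 ((hmR v).mp hv')
  have hSC : ∀ T, Disjoint (S T) C := fun T => Finset.disjoint_of_subset_right hC (hSR T)
  have hSC' : ∀ T, Disjoint (S T) C' := fun T => Finset.disjoint_of_subset_right hC'R (hSR T)
  -- the three functions
  have hF : ∀ T, fib π T = S T ∪ ((if i ∈ T then A else ∅) ∪ ((if j ∈ T then B else ∅) ∪
      (if k ∈ T then R else ∅))) := by
    intro T
    ext v
    rw [mem_fib, Finset.mem_union, Finset.mem_union, Finset.mem_union, hmS]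
    have e1 : v ∈ (if i ∈ T then A else ∅ : Finset V) ↔ i ∈ T ∧ π v = i := by
      split_ifs with h
      · rw [hmA]; simp [h]
      · simp [h]
    have e2 : v ∈ (if j ∈ T then B else ∅ : Finset V) ↔ j ∈ T ∧ π v = j := by
      split_ifs with h
      · rw [hmB]; simp [h]
      · simp [h]
    have e3 : v ∈ (if k ∈ T then R else ∅ : Finset V) ↔ k ∈ T ∧ π v = k := by
      split_ifs with h
      · rw [hmR]; simp [h]
      · simp [h]
    rw [e1, e2, e3]
    by_cases h1 : π v = i
    · simp [h1, hij, hik]
    · by_cases h2 : π v = j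
      · simp [h2, Ne.symm hij, hjk]
      · by_cases h3 : π v = k
        · simp [h3, Ne.symm hik, Ne.symm hjk]
        · simp [h1, h2, h3]
  have hF1 : ∀ T, fib (mvk i j k π) T = S T ∪ (if k ∈ T then R ∪ (A ∪ B) else ∅) := by
    intro T
    ext v
    rw [mem_fib, Finset.mem_union, hmS]
    have e1 : v ∈ (if k ∈ T then R ∪ (A ∪ B) else ∅ : Finset V) ↔
        k ∈ T ∧ (π v = k ∨ π v = i ∨ π v = j) := by
      split_ifs with h
      · rw [Finset.mem_union, Finset.mem_union, hmA, hmB, hmR]; simp [h]
      · simp [h]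
    rw [e1]
    unfold mvk
    by_cases h1 : π v = i
    · simp [h1]
    · by_cases h2 : π v = j
      · simp [h2]
      · by_cases h3 : π v = k
        · rw [h3]
          simp [Ne.symm hik, Ne.symm hjk]
        · simp [h1, h2, h3]
  have hF2 : ∀ T, fib (spk i j k C π) T = S T ∪ ((if i ∈ T then A ∪ C else ∅) ∪
      (if j ∈ T then B ∪ C' else ∅)) := by
    intro T
    ext v
    rw [mem_fib, Finset.mem_union, Finset.mem_union, hmS]
    have hmC' : v ∈ C' ↔ π v = k ∧ v ∉ C := by
      rw [hC', Finset.mem_sdiff, hmR]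
    have hmC : v ∈ C → π v = k := fun h => (hmR v).mp (hC h)
    have e1 : v ∈ (if i ∈ T then A ∪ C else ∅ : Finset V) ↔ i ∈ T ∧ (π v = i ∨ v ∈ C) := by
      split_ifs with h
      · rw [Finset.mem_union, hmA]; simp [h]
      · simp [h]
    have e2 : v ∈ (if j ∈ T then B ∪ C' else ∅ : Finset V) ↔
        j ∈ T ∧ (π v = j ∨ (π v = k ∧ v ∉ C)) := by
      split_ifs with h
      · rw [Finset.mem_union, hmB, hmC']; simp [h]
      · simp [h]
    rw [e1, e2]
    unfold spk
    by_cases h3 : π v = k
    · by_cases h4 : v ∈ C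
      · simp [h3, h4, Ne.symm hik, Ne.symm hjk]
      · simp [h3, h4, Ne.symm hik, Ne.symm hjk]
    · have h4 : v ∉ C := fun h => h3 (hmC h)
      by_cases h1 : π v = i
      · simp [h1, hik, h4]
        intro h5 h6
        exact absurd h6 hij
      · by_cases h2 : π v = j
        · simp [h2, hjk, h4, Ne.symm hij]
        · simp [h1, h2, h3, h4]
  have hRABe : R ∪ (A ∪ B) = (A ∪ B) ∪ R := Finset.union_comm _ _
  have hfAB : f (A ∪ B) = f R := by
    have h := hG ∅ _ _ hABG hk (Finset.disjoint_empty_left _)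
      (Finset.disjoint_empty_left _) hABc
    rwa [Finset.empty_union, Finset.empty_union] at h
  have hfC' : f C' = f B := by
    have h := hG ∅ _ _ hC'G hj (Finset.disjoint_empty_left _)
      (Finset.disjoint_empty_left _) hC'c
    rwa [Finset.empty_union, Finset.empty_union] at h
  have hfC : f C = f A := by
    have h := hG ∅ _ _ hCG hi (Finset.disjoint_empty_left _)
      (Finset.disjoint_empty_left _) hCi
    rwa [Finset.empty_union, Finset.empty_union] at h
  -- the cut function
  set cut : Finset W → ℝ := fun T => ((Ki + Kj - Kk) / 2) * cut2 i j T +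
    (((Ki + Kk - Kj) / 2) * cut2 i k T + ((Kj + Kk - Ki) / 2) * cut2 j k T) with hcut
  have hLDcut : LD cut c ψ = 0 := by
    rw [hcut, LD_add, LD_add, LD_smul, LD_smul, LD_smul, LD_cut2 hc hW, LD_cut2 hc hW,
      LD_cut2 hc hW]
    ring
  set D : Finset W → ℝ := fun T => 2 * f (fib π T) +
    ((-1) * f (fib (mvk i j k π) T) + (-1) * f (fib (spk i j k C π) T)) with hD
  have hLDD : LD D c ψ = 2 * LD (fun T => f (fib π T)) c ψ +
      ((-1) * LD (fun T => f (fib (mvk i j k π) T)) c ψ +
        (-1) * LD (fun T => f (fib (spk i j k C π) T)) c ψ) := by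
    rw [hD, LD_add, LD_add, LD_smul, LD_smul, LD_smul]
  have hle : ∀ T, D T ≤ cut T := by
    intro T
    rw [hD, hcut]
    change 2 * f (fib π T) + ((-1) * f (fib (mvk i j k π) T) +
      (-1) * f (fib (spk i j k C π) T)) ≤ ((Ki + Kj - Kk) / 2) * cut2 i j T +
      (((Ki + Kk - Kj) / 2) * cut2 i k T + ((Kj + Kk - Ki) / 2) * cut2 j k T)
    rw [hF, hF1, hF2]
    unfold cut2
    by_cases h1 : i ∈ T <;> by_cases h2 : j ∈ T <;> by_cases h3 : k ∈ T <;>
      simp only [h1, h2, h3, if_true, if_false, iff_true, iff_false, not_true_eq_false,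
        not_false_eq_true, Finset.empty_union, Finset.union_empty]
    · -- all three
      have e1 : A ∪ (B ∪ R) = R ∪ (A ∪ B) := by
        ext v; simp only [Finset.mem_union]; tauto
      have e2 : (A ∪ C) ∪ (B ∪ C') = R ∪ (A ∪ B) := by
        rw [← hRC]
        ext v; simp only [Finset.mem_union]; tauto
      rw [e1, e2]
      linarith
    · -- `i`, `j`
      have e2 : (A ∪ C) ∪ (B ∪ C') = (A ∪ B) ∪ R := by
        rw [← hRC]
        ext v; simp only [Finset.mem_union]; tauto
      have h := half hf hG (S := S T) hABG hk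
        (Finset.disjoint_union_right.mpr ⟨hSA T, hSB T⟩) (hSR T) hABR hABc
      rw [e2]
      rw [hfAB, ← hRABe] at h
      rw [← hRABe] at *
      linarith
    · -- `i`, `k`
      have e1 : S T ∪ (A ∪ R) = (S T ∪ (A ∪ C)) ∪ C' := by
        rw [← hRC]
        ext v; simp only [Finset.mem_union]; tauto
      have e2 : S T ∪ (R ∪ (A ∪ B)) = (S T ∪ (A ∪ C)) ∪ (C' ∪ B) := by
        rw [← hRC]
        ext v; simp only [Finset.mem_union]; tauto
      have h := half hf hG (S := S T ∪ (A ∪ C)) hC'G hj
        (Finset.disjoint_union_left.mpr ⟨hSC' T, Finset.disjoint_union_left.mpr ⟨hAC', hCC'⟩⟩)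
        (Finset.disjoint_union_left.mpr ⟨hSB T, Finset.disjoint_union_left.mpr
          ⟨hAB, hBC.symm⟩⟩) hBC'.symm hC'c
      rw [hfC', Finset.union_comm C' B] at h
      rw [e1, e2, Finset.union_comm C' B]
      linarith
    · -- `i`
      have h := half hf hG (S := S T) hi hCG (hSA T) (hSC T) hAC hCi.symm
      linarith
    · -- `j`, `k`
      have e1 : S T ∪ (B ∪ R) = (S T ∪ (B ∪ C')) ∪ C := by
        rw [← hRC]
        ext v; simp only [Finset.mem_union]; tauto
      have e2 : S T ∪ (R ∪ (A ∪ B)) = (S T ∪ (B ∪ C')) ∪ (C ∪ A) := by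
        rw [← hRC]
        ext v; simp only [Finset.mem_union]; tauto
      have h := half hf hG (S := S T ∪ (B ∪ C')) hCG hi
        (Finset.disjoint_union_left.mpr ⟨hSC T, Finset.disjoint_union_left.mpr
          ⟨hBC, hCC'.symm⟩⟩)
        (Finset.disjoint_union_left.mpr ⟨hSA T, Finset.disjoint_union_left.mpr
          ⟨hAB.symm, hAC'.symm⟩⟩) hAC.symm hCi
      rw [hfC, Finset.union_comm C A] at h
      rw [e1, e2, Finset.union_comm C A]
      linarith
    · -- `j`
      have h := half hf hG (S := S T) hj hC'G (hSB T) (hSC' T) hBC' hC'c.symm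
      linarith
    · -- `k`
      have h := half hf hG (S := S T) hk hABG (hSR T)
        (Finset.disjoint_union_right.mpr ⟨hSA T, hSB T⟩) hABR.symm hABc.symm
      linarith
    · linarith
  have heq : ∀ x, D {x} = cut {x} := by
    intro x
    have hfe : f ∅ = 0 := hf.empty
    have hS0 : ∀ x, x = i ∨ x = j ∨ x = k → S {x} = ∅ := by
      intro x hx
      apply Finset.eq_empty_of_forall_notMem
      intro v hv
      rw [hmS, Finset.mem_singleton] at hv
      rcases hx with h | h | h
      · exact hv.2.1 (hv.1.trans h)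
      · exact hv.2.2.1 (hv.1.trans h)
      · exact hv.2.2.2 (hv.1.trans h)
    rw [hD, hcut]
    change 2 * f (fib π {x}) + ((-1) * f (fib (mvk i j k π) {x}) +
      (-1) * f (fib (spk i j k C π) {x})) = ((Ki + Kj - Kk) / 2) * cut2 i j {x} +
      (((Ki + Kk - Kj) / 2) * cut2 i k {x} + ((Kj + Kk - Ki) / 2) * cut2 j k {x})
    rw [hF, hF1, hF2]
    unfold cut2
    simp only [Finset.mem_singleton]
    by_cases h1 : i = x
    · have h2 : j ≠ x := fun h => hij (h1.trans h.symm)
      have h3 : k ≠ x := fun h => hik (h1.trans h.symm)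
      rw [hS0 x (Or.inl h1.symm)]
      simp only [h1, h2, h3, if_true, if_false, iff_false, not_true_eq_false,
        Finset.empty_union, Finset.union_empty, hfe]
      linarith
    · by_cases h2 : j = x
      · have h3 : k ≠ x := fun h => hjk (h2.trans h.symm)
        rw [hS0 x (Or.inr (Or.inl h2.symm))]
        simp only [h1, h2, h3, if_true, if_false, iff_true, iff_false, not_true_eq_false,
          Finset.empty_union, Finset.union_empty, hfe]
        linarith
      · by_cases h3 : k = x
        · rw [hS0 x (Or.inr (Or.inr h3.symm))]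
          simp only [h1, h2, h3, if_true, if_false, iff_true,
            Finset.empty_union, Finset.union_empty, hfe]
          linarith
        · simp only [h1, h2, h3, if_false, Finset.union_empty, iff_self, if_true]
          linarith
  have hfin : LD cut c ψ ≤ LD D c ψ := by
    unfold LD
    have e1 : ∑ x, cut {x} * ψ x = ∑ x, D {x} * ψ x :=
      Finset.sum_congr rfl fun x _ => by rw [heq]
    have e2 : ∑ T, D T * c T ≤ ∑ T, cut T * c T :=
      Finset.sum_le_sum fun T _ => mul_le_mul_of_nonneg_right (hle T) (hc.nonneg T)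
    rw [e1]
    linarith
  rw [hLDcut, hLDD] at hfin
  linarith

end tri

section red

variable {V W : Type} [Fintype V] [Fintype W] [DecidableEq V] [DecidableEq W]

/-- The occupied places outside `X`. -/
def pur (X : Finset W) (π : V → W) : Finset W := Finset.univ.image π \ X

omit [Fintype W] [DecidableEq V] in
lemma mem_pur {X : Finset W} {π : V → W} {x : W} :
    x ∈ pur X π ↔ (∃ v, π v = x) ∧ x ∉ X := by
  unfold pur
  rw [Finset.mem_sdiff, Finset.mem_image]
  simp

omit [Fintype W] in
lemma fib_sub_of_pur {X : Finset W} {Γ : Finset V} {π : V → W} (h : ∀ v, v ∈ Γ ↔ π v ∉ X)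
    {x : W} (hx : x ∉ X) : fib π {x} ⊆ Γ := by
  intro v hv
  rw [mem_fib, Finset.mem_singleton] at hv
  rw [h, hv]
  exact hx

omit [Fintype W] in
lemma card_pos_of_pur {X : Finset W} {π : V → W} {x : W} (hx : x ∈ pur X π) :
    1 ≤ (fib π {x}).card := by
  obtain ⟨⟨v, hv⟩, _⟩ := mem_pur.mp hx
  exact Finset.card_pos.mpr ⟨v, by rw [mem_fib, hv]; simp⟩

/-- **Reduction to distinct sizes without relations.** -/
theorem red_ind {c : Finset W → ℝ} {ψ : W → ℝ} (hc : NCls c ψ) (hW : 3 ≤ Fintype.card W)
    {f : Finset V → ℝ} (hf : EF f) {G : Finset V} (hG : Exch f G)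
    (X : Finset W) (Γ : Finset V) (hΓ : Γ ⊆ G)
    (hterm : ∀ π : V → W, (∀ v, v ∈ Γ ↔ π v ∉ X) →
      (∀ i ∈ pur X π, ∀ j ∈ pur X π, i ≠ j → (fib π {i}).card ≠ (fib π {j}).card) →
      (∀ i ∈ pur X π, ∀ j ∈ pur X π, ∀ k ∈ pur X π, i ≠ j →
        (fib π {i}).card + (fib π {j}).card ≠ (fib π {k}).card) →
      0 ≤ LD (fun T => f (fib π T)) c ψ) (N : ℕ) :
    ∀ π : V → W, (∀ v, v ∈ Γ ↔ π v ∉ X) → (pur X π).card ≤ N →
      0 ≤ LD (fun T => f (fib π T)) c ψ := by
  induction N with
  | zero =>
    intro π hπ hN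
    have h0 : pur X π = ∅ := Finset.card_eq_zero.mp (by omega)
    apply hterm π hπ
    · intro i hi
      rw [h0] at hi
      exact absurd hi (Finset.notMem_empty _)
    · intro i hi
      rw [h0] at hi
      exact absurd hi (Finset.notMem_empty _)
  | succ N ih =>
    intro π hπ hN
    by_cases hA : ∃ i ∈ pur X π, ∃ j ∈ pur X π, i ≠ j ∧ (fib π {i}).card = (fib π {j}).card
    · obtain ⟨i, hi, j, hj, hij, hcard⟩ := hA
      obtain ⟨⟨vi, hvi⟩, hiX⟩ := mem_pur.mp hi
      obtain ⟨⟨vj, hvj⟩, hjX⟩ := mem_pur.mp hj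
      have h3 : ∃ k, k ≠ i ∧ k ≠ j := by
        have h1 : 0 < ((Finset.univ.erase i).erase j).card := by
          rw [Finset.card_erase_of_mem (by simp [hij.symm]),
            Finset.card_erase_of_mem (Finset.mem_univ _), Finset.card_univ]
          omega
        obtain ⟨k, hk⟩ := Finset.card_pos.mp h1
        simp only [Finset.mem_erase, Finset.mem_univ, and_true] at hk
        exact ⟨k, hk.2, hk.1⟩
      have step : ∀ a b : W, (∃ v, π v = a) → (∃ v, π v = b) → a ∉ X → b ∉ X → a ≠ b →
          0 ≤ LD (fun T => f (fib π (mg b a T))) c ψ := by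
        intro a b ha hb haX hbX hab
        set φ : W → W := fun x => if x = b then a else x with hφ
        have key : (fun T : Finset W => f (fib π (mg b a T))) =
            (fun T : Finset W => f (fib (φ ∘ π) T)) := by
          funext T
          congr 1
          ext v
          rw [mem_fib, mem_fib, mem_mg]
          rfl
        rw [key]
        apply ih (φ ∘ π)
        · intro v
          rw [hπ v]
          change _ ↔ (if π v = b then a else π v) ∉ X
          split_ifs with h
          · rw [h]
            exact ⟨fun _ => haX, fun _ => hbX⟩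
          · rfl
        · have hsub : pur X (φ ∘ π) ⊆ (pur X π).erase b := by
            intro x hx
            obtain ⟨⟨v, hv⟩, hxX⟩ := mem_pur.mp hx
            rw [Finset.mem_erase]
            change (if π v = b then a else π v) = x at hv
            split_ifs at hv with h
            · rw [← hv]
              exact ⟨hab, mem_pur.mpr ⟨ha, haX⟩⟩
            · exact ⟨fun h' => h (hv.trans h'), mem_pur.mpr ⟨⟨v, hv⟩, hxX⟩⟩
          have := Finset.card_le_card hsub
          rw [Finset.card_erase_of_mem (mem_pur.mpr ⟨hb, hbX⟩)] at this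
          omega
      have hm := merge (F := fun T : Finset W => f (fib π T)) hc (ef_comp hf π) hij h3
        (by
          intro S hiS hjS
          have e : ∀ x, fib π (insert x S) = fib π S ∪ fib π {x} := by
            intro x
            rw [← fib_union, Finset.union_comm]
            rfl
          rw [e i, e j]
          exact hG _ _ _ ((fib_sub_of_pur hπ hiX).trans hΓ) ((fib_sub_of_pur hπ hjX).trans hΓ)
            (fib_disjoint π (by simpa using hiS)) (fib_disjoint π (by simpa using hjS)) hcard)
      have h1 := step i j ⟨vi, hvi⟩ ⟨vj, hvj⟩ hiX hjX hij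
      have h2 := step j i ⟨vj, hvj⟩ ⟨vi, hvi⟩ hjX hiX hij.symm
      linarith
    by_cases hB : ∃ i ∈ pur X π, ∃ j ∈ pur X π, ∃ k ∈ pur X π, i ≠ j ∧
        (fib π {i}).card + (fib π {j}).card = (fib π {k}).card
    · obtain ⟨i, hi, j, hj, k, hk, hij, hsum⟩ := hB
      have hpi := card_pos_of_pur hi
      have hpj := card_pos_of_pur hj
      obtain ⟨⟨vi, hvi⟩, hiX⟩ := mem_pur.mp hi
      obtain ⟨⟨vj, hvj⟩, hjX⟩ := mem_pur.mp hj
      obtain ⟨⟨vk, hvk⟩, hkX⟩ := mem_pur.mp hk
      have hik : i ≠ k := by
        intro h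
        rw [h] at hsum
        omega
      have hjk : j ≠ k := by
        intro h
        rw [h] at hsum
        omega
      obtain ⟨C, hC, hCc⟩ := Finset.exists_subset_card_eq (s := fib π {k})
        (n := (fib π {i}).card) (by omega)
      have hm := tri hc (by omega) hf hG π hij hik hjk ((fib_sub_of_pur hπ hiX).trans hΓ)
        ((fib_sub_of_pur hπ hjX).trans hΓ) ((fib_sub_of_pur hπ hkX).trans hΓ) hC hCc hsum
      have h1 : 0 ≤ LD (fun T => f (fib (mvk i j k π) T)) c ψ := by
        apply ih
        · intro v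
          rw [hπ v]
          unfold mvk
          split_ifs with h
          · rcases h with h | h
            · rw [h]
              exact ⟨fun _ => hkX, fun _ => hiX⟩
            · rw [h]
              exact ⟨fun _ => hkX, fun _ => hjX⟩
          · rfl
        · have hsub : pur X (mvk i j k π) ⊆ (pur X π).erase i := by
            intro x hx
            obtain ⟨⟨v, hv⟩, hxX⟩ := mem_pur.mp hx
            rw [Finset.mem_erase]
            unfold mvk at hv
            split_ifs at hv with h
            · rw [← hv]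
              exact ⟨hik.symm, hk⟩
            · exact ⟨fun h' => h (Or.inl (hv.trans h')), mem_pur.mpr ⟨⟨v, hv⟩, hxX⟩⟩
          have := Finset.card_le_card hsub
          rw [Finset.card_erase_of_mem hi] at this
          omega
      have h2 : 0 ≤ LD (fun T => f (fib (spk i j k C π) T)) c ψ := by
        apply ih
        · intro v
          rw [hπ v]
          unfold spk
          split_ifs with h h'
          · rw [h]
            exact ⟨fun _ => hiX, fun _ => hkX⟩
          · rw [h]
            exact ⟨fun _ => hjX, fun _ => hkX⟩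
          · rfl
        · have hsub : pur X (spk i j k C π) ⊆ (pur X π).erase k := by
            intro x hx
            obtain ⟨⟨v, hv⟩, hxX⟩ := mem_pur.mp hx
            rw [Finset.mem_erase]
            unfold spk at hv
            split_ifs at hv with h h'
            · rw [← hv]
              exact ⟨hik, hi⟩
            · rw [← hv]
              exact ⟨hjk, hj⟩
            · exact ⟨fun h' => h (hv.trans h'), mem_pur.mpr ⟨⟨v, hv⟩, hxX⟩⟩
          have := Finset.card_le_card hsub
          rw [Finset.card_erase_of_mem hk] at this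
          omega
      linarith
    · apply hterm π hπ
      · intro i hi j hj hij h
        exact hA ⟨i, hi, j, hj, hij, h⟩
      · intro i hi j hj k hk hij h
        exact hB ⟨i, hi, j, hj, k, hk, hij, h⟩

end red

end Pool.Agent.H41.FM.Red
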