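import Mathlib

set_option autoImplicit false
set_option maxHeartbeats 1000000

/-! Sets of positive integers without relations `x + y = z`, `x ≠ y`. -/

namespace Pool.Agent.H41.FM.Red

/-- Search for sets without relations: `x` is the next candidate, `q` elements are to be chosen
with sum at most `b`; `C` is the mask of the chosen elements, `F` the mask of the sums of two
different chosen elements, `l` the list of the chosen elements; `ok` is tested on complete sets. -/
def srch (ok : List ℕ → Bool) : ℕ → ℕ → ℕ → ℕ → ℕ → ℕ → List ℕ → Bool
  | 0, _, _, _, _, _, _ => false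
  | n + 1, x, q, b, C, F, l =>
    if q = 0 then ok l
    else if b < q * x + q * (q - 1) / 2 then true
    else srch ok n (x + 1) q b C F l &&
      (F.testBit x || srch ok n (x + 1) (q - 1) (b - x) (C ||| 2 ^ x) (F ||| (C <<< x)) (x :: l))

/-- a relation `x + y = z` with `x ≠ y` -/
def HasRel (S : Finset ℕ) : Prop := ∃ x ∈ S, ∃ y ∈ S, x ≠ y ∧ x + y ∈ S

lemma HasRel.mono {S T : Finset ℕ} (h : HasRel S) (hST : S ⊆ T) : HasRel T := by
  obtain ⟨x, hx, y, hy, hxy, hs⟩ := h
  exact ⟨x, hST hx, y, hST hy, hxy, hST hs⟩

lemma sum_ge_of (S : Finset ℕ) (x : ℕ) (h : ∀ y ∈ S, x ≤ y) :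
    S.card * x + S.card * (S.card - 1) / 2 ≤ ∑ y ∈ S, y := by
  have h2 : ∀ n : ℕ, ∀ S : Finset ℕ, S.card = n → ∀ x, (∀ y ∈ S, x ≤ y) →
      n * x + n * (n - 1) / 2 ≤ ∑ y ∈ S, y := by
    intro n
    induction n with
    | zero => intro S _ x _; simp
    | succ n ih =>
      intro S hS x hx
      have hne : S.Nonempty := by
        rw [← Finset.card_pos]; omega
      set m := S.min' hne with hm
      have hmS : m ∈ S := Finset.min'_mem S hne
      have h1 := ih (S.erase m) (by rw [Finset.card_erase_of_mem hmS]; omega) (x + 1) (by
        intro y hy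
        have h3 := Finset.min'_lt_of_mem_erase_min' S hne hy
        have h4 := hx m hmS
        rw [← hm] at h3
        omega)
      rw [← Finset.add_sum_erase S (fun y => y) hmS]
      have h4 := hx m hmS
      have h5 : (n + 1) * (n + 1 - 1) / 2 = n + n * (n - 1) / 2 := by
        rcases n with _ | n
        · simp
        · have e1 : (n + 1 + 1) * (n + 1 + 1 - 1) = 2 * (n + 1) + (n + 1) * (n + 1 - 1) := by
            simp only [Nat.add_sub_cancel]
            ring
          rw [e1, Nat.mul_add_div (by norm_num)]
      rw [h5]
      have e2 : (n + 1) * x = n * x + x := by ring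
      have e3 : n * (x + 1) = n * x + n := by ring
      rw [e3] at h1
      rw [e2]
      change n * x + x + (n + n * (n - 1) / 2) ≤ m + ∑ y ∈ S.erase m, y
      omega
  exact h2 S.card S rfl x h

/-- **Soundness of the search.** -/
theorem srch_spec (ok : List ℕ → Bool) : ∀ (n x q b C F : ℕ) (l : List ℕ) (Ch : Finset ℕ),
    srch ok n x q b C F l = true →
    (∀ t, t ∈ Ch ↔ t ∈ l) → l.Pairwise (· > ·) → (∀ t, C.testBit t = true → t ∈ Ch) →
    (∀ t ∈ Ch, t < x) →
    (∀ t, F.testBit t = true → ∃ a ∈ Ch, ∃ b ∈ Ch, a ≠ b ∧ a + b = t) →
    ∀ S : Finset ℕ, S.card = q → (∀ y ∈ S, x ≤ y) → ∑ y ∈ S, y ≤ b →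
    HasRel (Ch ∪ S) ∨ ∃ l' : List ℕ, (∀ t, t ∈ l' ↔ t ∈ Ch ∪ S) ∧ l'.Pairwise (· > ·) ∧
      ok l' = true := by
  intro n
  induction n with
  | zero => intro x q b C F l Ch h; simp [srch] at h
  | succ n ih =>
    intro x q b C F l Ch h hl hp hC hlt hF S hS hx hb
    rw [srch] at h
    by_cases hq : q = 0
    · rw [if_pos hq] at h
      rw [hq, Finset.card_eq_zero] at hS
      right
      refine ⟨l, ?_, hp, h⟩
      intro t
      rw [hS, Finset.union_empty, hl]
    rw [if_neg hq] at h
    by_cases hpr : b < q * x + q * (q - 1) / 2
    · have h1 := sum_ge_of S x hx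
      rw [hS] at h1
      omega
    rw [if_neg hpr, Bool.and_eq_true, Bool.or_eq_true] at h
    obtain ⟨h1, h2⟩ := h
    by_cases hxS : x ∈ S
    · rcases h2 with h2 | h2
      · obtain ⟨a, ha, b', hb', hab, hsum⟩ := hF x h2
        left
        exact ⟨a, Finset.mem_union_left _ ha, b', Finset.mem_union_left _ hb', hab,
          by rw [hsum]; exact Finset.mem_union_right _ hxS⟩
      · have hU : insert x Ch ∪ S.erase x = Ch ∪ S := by
          ext t
          simp only [Finset.mem_union, Finset.mem_insert, Finset.mem_erase]
          constructor
          · rintro ((h | h) | h)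
            · rw [h]; exact Or.inr hxS
            · exact Or.inl h
            · exact Or.inr h.2
          · rintro (h | h)
            · exact Or.inl (Or.inr h)
            · by_cases ht : t = x
              · exact Or.inl (Or.inl ht)
              · exact Or.inr ⟨ht, h⟩
        have h3 := ih (x + 1) (q - 1) (b - x) _ _ (x :: l) (insert x Ch) h2
          (by
            intro t
            rw [Finset.mem_insert, List.mem_cons, hl])
          (by
            rw [List.pairwise_cons]
            exact ⟨fun t ht => hlt t ((hl t).mpr ht), hp⟩)
          (by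
            intro t ht
            rw [Nat.testBit_or, Bool.or_eq_true] at ht
            rw [Finset.mem_insert]
            rcases ht with ht | ht
            · exact Or.inr (hC t ht)
            · rw [Nat.testBit_two_pow] at ht
              left
              simpa using (of_decide_eq_true ht).symm)
          (by
            intro t ht
            rw [Finset.mem_insert] at ht
            rcases ht with ht | ht
            · omega
            · have := hlt t ht
              omega)
          (by
            intro t ht
            rw [Nat.testBit_or, Bool.or_eq_true] at ht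
            rcases ht with ht | ht
            · obtain ⟨a, ha, b', hb', hab, hsum⟩ := hF t ht
              exact ⟨a, Finset.mem_insert_of_mem ha, b', Finset.mem_insert_of_mem hb', hab, hsum⟩
            · rw [Nat.testBit_shiftLeft, Bool.and_eq_true] at ht
              have h4 := hC _ ht.2
              have h5 : x ≤ t := by simpa using ht.1
              refine ⟨t - x, Finset.mem_insert_of_mem h4, x, Finset.mem_insert_self _ _, ?_, ?_⟩
              · have := hlt _ h4
                omega
              · omega)
          (S.erase x) (by rw [Finset.card_erase_of_mem hxS, hS])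
          (by
            intro y hy
            have h4 := hx y (Finset.mem_of_mem_erase hy)
            have h5 := Finset.ne_of_mem_erase hy
            omega)
          (by
            rw [← Finset.add_sum_erase S (fun y => y) hxS] at hb
            change x + ∑ y ∈ S.erase x, y ≤ b at hb
            omega)
        rw [hU] at h3
        exact h3
    · exact ih (x + 1) q b C F l Ch h1 hl hp hC (fun t ht => by have := hlt t ht; omega) hF S hS
        (by
          intro y hy
          have h4 := hx y hy
          have h5 : y ≠ x := fun h => hxS (h ▸ hy)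
          omega) hb

/-- no exceptions -/
def none' : List ℕ → Bool := fun _ => false

theorem hasRel_of_srch {n q b : ℕ} (h : srch none' n 1 q b 0 0 [] = true) {S : Finset ℕ}
    (hS : S.card = q) (h1 : ∀ y ∈ S, 1 ≤ y) (hb : ∑ y ∈ S, y ≤ b) : HasRel S := by
  have h2 := srch_spec none' n 1 q b 0 0 [] ∅ h (by simp) List.Pairwise.nil
    (by intro t ht; simp at ht) (by simp) (by intro t ht; simp at ht) S hS h1 hb
  rw [Finset.empty_union] at h2
  rcases h2 with h2 | ⟨l, _, _, h3⟩
  · exact h2
  · simp [none'] at h3

theorem s5 : srch none' 60 1 5 23 0 0 [] = true := by decide +kernel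
theorem s4 : srch none' 60 1 4 13 0 0 [] = true := by decide +kernel
theorem s3 : srch none' 60 1 3 6 0 0 [] = true := by decide +kernel
theorem s2 : srch none' 60 1 2 2 0 0 [] = true := by decide +kernel
theorem s1 : srch none' 60 1 1 0 0 0 [] = true := by decide +kernel

end Pool.Agent.H41.FM.Red
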