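import Pool.Agent.H41.FM.Types
import Pool.Agent.H41.FM.Red
import Pool.Agent.H41.FM.Srch

set_option autoImplicit false
set_option maxHeartbeats 1000000

/-! Symmetric functions on curves with few arbitrary moving special points. -/

namespace Pool.Agent.H41.FM.Red

open Pool.Agent.H20 Pool.Agent.H20.MG Pool.Agent.H41.FM

universe u v w

section fin

variable {V W : Type} [Fintype V] [Fintype W] [DecidableEq V] [DecidableEq W]

/-- the sizes of the parts at the occupied places outside `X` -/
def szs (X : Finset W) (π : V → W) : Finset ℕ := (pur X π).image (fun x => (fib π {x}).card)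

lemma szs_facts {X : Finset W} {π : V → W}
    (h1 : ∀ i ∈ pur X π, ∀ j ∈ pur X π, i ≠ j → (fib π {i}).card ≠ (fib π {j}).card)
    (h2 : ∀ i ∈ pur X π, ∀ j ∈ pur X π, ∀ k ∈ pur X π, i ≠ j →
      (fib π {i}).card + (fib π {j}).card ≠ (fib π {k}).card) :
    (szs X π).card = (pur X π).card ∧ (∀ y ∈ szs X π, 1 ≤ y) ∧
      ∑ y ∈ szs X π, y ≤ (Finset.univ.filter (fun v => π v ∉ X)).card ∧
      ¬ HasRel (szs X π) := by
  have hinj : ∀ a ∈ pur X π, ∀ b ∈ pur X π, (fib π {a}).card = (fib π {b}).card → a = b := by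
    intro a ha b hb hab
    by_contra hne
    exact h1 a ha b hb hne hab
  refine ⟨Finset.card_image_of_injOn (fun a ha b hb hab => hinj a ha b hb hab), ?_, ?_, ?_⟩
  · intro y hy
    unfold szs at hy
    rw [Finset.mem_image] at hy
    obtain ⟨x, hx, rfl⟩ := hy
    exact card_pos_of_pur hx
  · unfold szs
    rw [Finset.sum_image (fun a ha b hb hab => hinj a ha b hb hab),
      ← Finset.card_biUnion (fun a _ b _ hab => fib_disjoint π (Finset.disjoint_singleton.mpr hab))]
    apply Finset.card_le_card
    intro v hv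
    rw [Finset.mem_biUnion] at hv
    obtain ⟨x, hx, hv⟩ := hv
    rw [mem_fib, Finset.mem_singleton] at hv
    rw [Finset.mem_filter]
    refine ⟨Finset.mem_univ _, ?_⟩
    rw [hv]
    exact (mem_pur.mp hx).2
  · rintro ⟨x, hx, y, hy, hxy, hs⟩
    unfold szs at hx hy hs
    rw [Finset.mem_image] at hx hy hs
    obtain ⟨i, hi, rfl⟩ := hx
    obtain ⟨j, hj, rfl⟩ := hy
    obtain ⟨k, hk, hs⟩ := hs
    exact h2 i hi j hj k hk (fun h => hxy (by rw [h])) hs.symm

end fin

/-- The number of marks which are allowed over the moving special points outside `r` arbitrary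
ones is less than `bnd4 r`. -/
def bnd4 : ℕ → ℕ
  | 0 => 24
  | 1 => 14
  | 2 => 7
  | 3 => 3
  | 4 => 1
  | _ => 0

lemma rel_of_bnd4 {r s : ℕ} (h : s < bnd4 r) : ∀ S : Finset ℕ, S.card = 5 - r →
    (∀ y ∈ S, 1 ≤ y) → ∑ y ∈ S, y ≤ s → HasRel S := by
  intro S hS h1 hs
  match r, h, hS with
  | 0, h, hS => exact hasRel_of_srch s5 hS h1 (by change s < 24 at h; omega)
  | 1, h, hS => exact hasRel_of_srch s4 hS h1 (by change s < 14 at h; omega)
  | 2, h, hS => exact hasRel_of_srch s3 hS h1 (by change s < 7 at h; omega)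
  | 3, h, hS => exact hasRel_of_srch s2 hS h1 (by change s < 3 at h; omega)
  | 4, h, hS => exact hasRel_of_srch s1 hS h1 (by change s < 1 at h; omega)
  | (n + 5), h, _ => exact absurd h (Nat.not_lt_zero _)

lemma exch_of_symOn {V : Type} [DecidableEq V] {f : Finset V → ℝ} {G : Finset V}
    (hG : SymOn f G) : Exch f G := by
  intro S Y Z hY hZ hSY hSZ hYZ
  apply hG
  · have e : ∀ X : Finset V, X ⊆ G → (S ∪ X) \ G = S \ G := by
      intro X hX
      ext x
      simp only [Finset.mem_sdiff, Finset.mem_union]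
      constructor
      · rintro ⟨h | h, h'⟩
        · exact ⟨h, h'⟩
        · exact absurd (hX h) h'
      · rintro ⟨h, h'⟩
        exact ⟨Or.inl h, h'⟩
    rw [e _ hY, e _ hZ]
  · have e : ∀ X : Finset V, X ⊆ G → Disjoint S X →
        ((S ∪ X) ∩ G).card = (S ∩ G).card + X.card := by
      intro X hX hd
      rw [Finset.union_inter_distrib_right, Finset.card_union_of_disjoint]
      · rw [Finset.inter_eq_left.mpr hX]
      · exact Finset.disjoint_of_subset_left Finset.inter_subset_left
          (Finset.disjoint_of_subset_right Finset.inter_subset_left hd)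
    rw [e _ hY hSY, e _ hZ hSZ, hYZ]

section curves

variable {k : Type u} {K : Type v} [Field k] [Field K] [Algebra k K] [IsAlgClosed k]

lemma nrm_symOn {V : Type} [Fintype V] [DecidableEq V] {f : Finset V → ℝ} {G : Finset V}
    (hG : SymOn f G) : SymOn (nrm f) G := by
  intro A B h1 h2
  have hcard : A.card = B.card := by
    rw [← Finset.card_sdiff_add_card_inter A G, ← Finset.card_sdiff_add_card_inter B G, h1, h2]
  have h3 : A = ∅ ↔ B = ∅ := by
    rw [← Finset.card_eq_zero, ← Finset.card_eq_zero, hcard]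
  have h4 : A = Finset.univ ↔ B = Finset.univ := by
    rw [← Finset.card_eq_iff_eq_univ, ← Finset.card_eq_iff_eq_univ, hcard]
  unfold nrm
  simp only [h3, h4]
  split_ifs
  · rfl
  · exact hG A B h1 h2

/-- **Symmetric functions on curves with few arbitrary moving special points.** -/
theorem deg_nonneg_of_bnd4 {n m : ℕ} {f : Finset (Fin n) → ℝ} (hs : IsSymm f) (hF : IsFNef f)
    (hK : IsCurveField k K) (hm : 4 ≤ m) {π : Fin n → Fin m} (hπ : Function.Surjective π)
    {p : Fin m → K × K} (hp : IsPoint p) {H : Finset (Fin m)}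
    (hc : ConstCross k p (H : Set (Fin m))) {G : Finset (Fin n)} (hG : SymOn f G)
    {X : Finset (Fin m)} (hXG : ∀ v, π v ∉ H ∪ X → v ∈ G)
    (hb : (Finset.univ.filter (fun v => π v ∉ H ∪ X)).card < bnd4 X.card) :
    0 ≤ deg k f π p := by
  classical
  have hW : 4 ≤ Fintype.card (Fin m) := by rw [Fintype.card_fin]; omega
  rcases Nat.lt_or_ge m 7 with hm7 | hm7
  · -- any three marks have constant cross-ratios
    obtain ⟨H', hH'⟩ : ∃ H' : Finset (Fin m), H'.card = 3 := by
      obtain ⟨H', _, h⟩ := Finset.exists_subset_card_eq (s := (Finset.univ : Finset (Fin m)))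
        (n := 3) (by rw [Finset.card_univ, Fintype.card_fin]; omega)
      exact ⟨H', h⟩
    apply deg_nonneg_four_moving hK hs hF hπ hp hW H'
      (by rw [Finset.card_compl, Fintype.card_fin]; omega)
    intro i hi j hj l hl q hq hij hil hiq hjl hjq hlq
    exfalso
    have h4 : ({i, j, l, q} : Finset (Fin m)).card = 4 := by
      rw [Finset.card_insert_of_notMem, Finset.card_insert_of_notMem,
        Finset.card_insert_of_notMem, Finset.card_singleton]
      · simpa using hlq
      · simp [hjl, hjq]
      · simp [hij, hil, hiq]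
    have h5 : ({i, j, l, q} : Finset (Fin m)) ⊆ H' := by
      intro t ht
      simp only [Finset.mem_insert, Finset.mem_singleton] at ht
      rcases ht with rfl | rfl | rfl | rfl
      · exact Finset.mem_coe.1 hi
      · exact Finset.mem_coe.1 hj
      · exact Finset.mem_coe.1 hl
      · exact Finset.mem_coe.1 hq
    have := Finset.card_le_card h5
    omega
  · rw [deg_eq_LD f hπ p (by simp; omega)]
    have hcl := ncls_of_curve (k := k) hK hp (by simp; omega)
    have hcon := constN_of_curve hp hc
    set Γ : Finset (Fin n) := Finset.univ.filter (fun v => π v ∉ H ∪ X) with hΓ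
    have hmem : ∀ v, v ∈ Γ ↔ π v ∉ H ∪ X := by
      intro v
      rw [hΓ, Finset.mem_filter]
      simp
    refine red_ind hcl (by simp; omega) (nrm_EF hs hF) (exch_of_symOn (nrm_symOn hG)) (H ∪ X) Γ
      (fun v hv => hXG v ((hmem v).mp hv)) ?_ _ π hmem (le_refl _)
    intro ρ hρ h1 h2
    obtain ⟨e1, e2, e3, e4⟩ := szs_facts h1 h2
    have e5 : Finset.univ.filter (fun v => ρ v ∉ H ∪ X) = Γ := by
      ext v
      rw [Finset.mem_filter, hρ v]
      simp
    rw [e5] at e3
    have e7 : (szs (H ∪ X) ρ).card ≤ 4 - X.card := by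
      by_contra h
      push Not at h
      obtain ⟨S, hS, hSc⟩ := Finset.exists_subset_card_eq (s := szs (H ∪ X) ρ)
        (n := 5 - X.card) (by omega)
      exact e4 ((rel_of_bnd4 hb S hSc (fun y hy => e2 y (hS hy))
        ((Finset.sum_le_sum_of_subset hS).trans e3)).mono hS)
    have e8 : X.card ≤ 4 := by
      by_contra h
      push Not at h
      have : bnd4 X.card = 0 := by
        obtain ⟨k', hk'⟩ : ∃ k', X.card = k' + 5 := ⟨X.card - 5, by omega⟩
        rw [hk']
        rfl
      omega
    apply base_four hcl (by simp; omega) hcon (nrm_EF hs hF)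
    have e9 : Finset.univ.image ρ \ H ⊆ pur (H ∪ X) ρ ∪ X := by
      intro x hx
      rw [Finset.mem_sdiff] at hx
      by_cases h : x ∈ X
      · exact Finset.mem_union_right _ h
      · apply Finset.mem_union_left
        unfold pur
        rw [Finset.mem_sdiff, Finset.mem_union]
        exact ⟨hx.1, fun h' => h'.elim hx.2 h⟩
    have e10 := (Finset.card_le_card e9).trans (Finset.card_union_le _ _)
    omega

end curves

end Pool.Agent.H41.FM.Red
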