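import Pool.Agent.H41.FM.Ordered

set_option autoImplicit false
set_option maxHeartbeats 1000000

/-!
# Four moving points: the numerical theorem
-/

namespace Pool.Agent.H41.FM

open Finset Pool.Agent.H20

universe u

variable {W : Type u} [DecidableEq W]

section stars

variable {h : Finset W → ℝ} {A : Finset W} {a b c d : W}

lemma m_ineqs (D : Dist A a b c d) (Hh : Hyp h (A ∪ {a, b, c, d})) :
    (∑ j ∈ insertNone A, (HH h A a b c d j true true true true -
        HP h ∅ a b c d true true true true) + 2 * HP h ∅ a b c d true true true true ≤
      (HP h A a b c d true true true true - HP h A a b c d false true true true) +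
      (HP h A a b c d true true true true - HP h A a b c d true false true true) +
      (HP h A a b c d true true true true - HP h A a b c d true true false true) +
      (HP h A a b c d true true true true - HP h A a b c d true true true false)) ∧
    (∑ j ∈ insertNone A, (HH h A a b c d j true true true false -
        HP h ∅ a b c d true true true false) + HP h ∅ a b c d true true true false +
        HP h ∅ a b c d true true true true ≤
      (HP h A a b c d true true true true - HP h A a b c d false true true true) +
      (HP h A a b c d true true true true - HP h A a b c d true false true true) +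
      (HP h A a b c d true true true true - HP h A a b c d true true false true)) ∧
    (∑ j ∈ insertNone A, HH h A a b c d j true true false false +
        HP h ∅ a b c d true true true true ≤
      (HP h A a b c d true true true true - HP h A a b c d false true true true) +
      (HP h A a b c d true true true true - HP h A a b c d true false true true)) ∧
    (HP h ∅ a b c d true true true true - HP h ∅ a b c d false true true true ≤
      HP h A a b c d true true true true - HP h A a b c d false true true true) ∧
    (HP h ∅ a b c d true true true true - HP h ∅ a b c d true false true true ≤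
      HP h A a b c d true true true true - HP h A a b c d true false true true) := by
  have z2 := z2_HP Hh
  have crs := crs_HP D Hh (Subset.refl A)
  -- the star inequalities
  have s1 := star_ineq h _ Hh.h2 Hh.h0 (bs a b c d true true true true) A
    (bs_disjA D (Subset.refl A)).symm (union_subset (bs_sub.trans subset_union_right)
      subset_union_left)
  have s2 := star_ineq h _ Hh.h2 Hh.h0 (bs a b c d true true true false) (insert d A)
    (by
      rw [disjoint_insert_right]
      refine ⟨?_, (bs_disjA D (Subset.refl A)).symm⟩
      rw [mem_bs]
      simp [D.ad.symm, D.bd.symm, D.cd.symm])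
    (union_subset (bs_sub.trans subset_union_right) (by
      intro t ht
      simp only [mem_union, mem_insert, mem_singleton] at ht ⊢
      tauto))
  have s3 := star_ineq h _ Hh.h2 Hh.h0 (bs a b c d true true false false) A
    (bs_disjA D (Subset.refl A)).symm (union_subset (bs_sub.trans subset_union_right)
      subset_union_left)
  have s4 := star_ineq h _ Hh.h2 Hh.h0 (bs a b c d true false false false) A
    (bs_disjA D (Subset.refl A)).symm (union_subset (bs_sub.trans subset_union_right)
      subset_union_left)
  have s5 := star_ineq h _ Hh.h2 Hh.h0 (bs a b c d false true false false) A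
    (bs_disjA D (Subset.refl A)).symm (union_subset (bs_sub.trans subset_union_right)
      subset_union_left)
  have hA0 : h A = HP h A a b c d false false false false := by
    simp [HP, bs]
  have ei : ∀ i : W, ∀ p q r s : Bool, h ({i} ∪ bs a b c d p q r s) = HP h {i} a b c d p q r s :=
    fun _ _ _ _ _ => rfl
  have eA : ∀ p q r s : Bool, h (A ∪ bs a b c d p q r s) = HP h A a b c d p q r s :=
    fun _ _ _ _ => rfl
  have e0 : ∀ p q r s : Bool, h (bs a b c d p q r s) = HP h ∅ a b c d p q r s := by
    intro p q r s
    simp [HP]
  have z1 : ∀ i ∈ A, Z1 (HP h {i} a b c d) := fun i hi => z1_HP Hh hi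
  have ed : insert d A = A ∪ bs a b c d false false false true := by
    ext t
    simp only [mem_insert, mem_union, mem_bs]
    simp [or_comm]
  have ed2 : ({d} : Finset W) ∪ bs a b c d true true true false =
      bs a b c d true true true true := by
    ext t
    simp only [mem_union, mem_singleton, mem_bs]
    simp only [true_and, Bool.false_eq_true, false_and, or_false]
    tauto
  have ed3 : insert d A ∪ bs a b c d true true true false = A ∪ bs a b c d true true true true := by
    ext t
    simp only [mem_insert, mem_union, mem_bs]
    simp only [true_and, Bool.false_eq_true, false_and, or_false]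
    tauto
  rw [sum_insert D.d, card_insert_of_notMem D.d, ed2, ed3] at s2
  rw [ed] at s2
  simp only [ei, eA, e0] at s1 s2 s3 s4 s5
  rw [hA0] at s1 s3 s4 s5
  rw [z2.ab] at s3
  rw [z2.a, sum_eq_zero (fun i hi => (z1 i hi).a)] at s4
  rw [z2.b, sum_eq_zero (fun i hi => (z1 i hi).b)] at s5
  push_cast at s2
  -- the crossing inequalities
  have c1 := crs false false false false true true false false false false true true rfl
  have c2 := crs false false false false true false false false false true true true rfl
  have c3 := crs false false false false false true false false true false true true rfl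
  simp only [Bool.or_false, Bool.or_true, Bool.or_self, z2.ab, z2.cd, z2.a, z2.b] at c1 c2 c3
  have hn : ∀ p q r s : Bool, HH h A a b c d none p q r s = HN h A a b c d p q r s :=
    fun _ _ _ _ => rfl
  have hs : ∀ i, ∀ p q r s : Bool, HH h A a b c d (some i) p q r s = HP h {i} a b c d p q r s :=
    fun _ _ _ _ _ => rfl
  simp only [sum_insertNone, hn, hs, HN, iv_true, iv_false, Bool.not_true, Bool.not_false,
    sum_sub_distrib, sum_const, nsmul_eq_mul, card_insertNone, Nat.cast_add, Nat.cast_one]
  refine ⟨?_, ?_, ?_, ?_, ?_⟩ <;> linarith

end stars

section main

variable {h : Finset W → ℝ} {A : Finset W} {a b c d : W}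
variable {I : Finset (Finset W)} {cT : Finset W → ℝ} {lam : ℝ}

theorem four_moving_ordered (D : Dist A a b c d) (Hh : Hyp h (A ∪ {a, b, c, d}))
    (K : Col I cT A (A ∪ {a, b, c, d}) lam)
    (hab : ev I cT A b ≤ ev I cT A a) (hbc : ev I cT A c ≤ ev I cT A b)
    (hcd : ev I cT A d ≤ ev I cT A c) :
    ∑ T ∈ I, cT T * h T ≤ lam * h (A ∪ {a, b, c, d}) := by
  have haX : a ∈ A ∪ {a, b, c, d} := by simp
  have hbX : b ∈ A ∪ {a, b, c, d} := by simp
  have hcX : c ∈ A ∪ {a, b, c, d} := by simp
  have hdX : d ∈ A ∪ {a, b, c, d} := by simp
  have hAX : A ⊆ A ∪ {a, b, c, d} := subset_union_left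
  obtain ⟨m1, m2, m3, m4, m5⟩ := m_ineqs D Hh
  have w0 : ∀ j ∈ insertNone A, ∀ T ∈ I, 0 ≤ wj cT A j T := by
    intro j _ T _
    cases j with
    | none => simp only [wj]; split_ifs; exacts [K.hc T, le_refl _]
    | some i => simp only [wj]; split_ifs; exacts [K.hc T, le_refl _]
  have marg : ∀ x, x ∉ A → x ∈ A ∪ {a, b, c, d} → ∀ j ∈ insertNone A,
      ∑ T ∈ I, wj cT A j T * iv (bt x j T) = ev I cT A x := by
    intro x hx hxX j hj
    cases j with
    | none => exact marg_none x
    | some i => exact marg_some K hAX (some_mem_insertNone.1 hj) hx hxX
  have hD : Dat (HP h ∅ a b c d) (insertNone A) (HH h A a b c d) I (wj cT A)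
      (bt a) (bt b) (bt c) (bt d) (wg cT A) (fun T => decide (a ∈ T)) (fun T => decide (b ∈ T))
      (fun T => decide (c ∈ T)) (fun T => decide (d ∈ T))
      (ev I cT A a) (ev I cT A b) (ev I cT A c) (ev I cT A d)
      (HP h A a b c d true true true true - HP h A a b c d false true true true)
      (HP h A a b c d true true true true - HP h A a b c d true false true true)
      (HP h A a b c d true true true true - HP h A a b c d true true false true)
      (HP h A a b c d true true true true - HP h A a b c d true true true false) := by
    refine ⟨z2_HP Hh, crs_HP D Hh (empty_subset _), ?_, ?_, w0, ?_, marg a D.a haX,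
      marg b D.b hbX, marg c D.c hcX, marg d D.d hdX, pair_sum K hAX haX hbX D.ab,
      pair_sum K hAX haX hcX D.ac, pair_sum K hAX haX hdX D.ad, pair_sum K hAX hbX hdX D.bd,
      ?_, hcd, hbc, hab, m1, m2, m3, m4, m5⟩
    · intro j hj
      cases j with
      | none => exact z1_HN h A a b c d
      | some i => exact z1_HP Hh (some_mem_insertNone.1 hj)
    · intro j hj
      cases j with
      | none => exact crs_HN D Hh
      | some i => exact crs_HP D Hh (singleton_subset_iff.2 (some_mem_insertNone.1 hj))
    · intro T _
      simp only [wg]
      split_ifs
      exacts [K.hc T, le_refl _]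
    · apply sum_nonneg
      intro T _
      split_ifs
      exacts [K.hc T, le_refl _]
  have hcore := core_ineq hD ⟨none, none_mem_insertNone⟩
  rw [sum_insertNone] at hcore
  rw [split_sum K]
  have f1 : ∑ T ∈ I, wg cT A T * h T = ∑ T ∈ I, wg cT A T * HP h ∅ a b c d (decide (a ∈ T))
      (decide (b ∈ T)) (decide (c ∈ T)) (decide (d ∈ T)) := by
    apply sum_congr rfl
    intro T hT
    simp only [wg]
    by_cases hE : T ∩ A = ∅
    · have := set_eq D (K.hI T hT)
      rw [hE] at this
      simp only [HP]
      rw [← this]
    · simp [hE]
  have f2 : ∑ i ∈ A, ∑ T ∈ I, wj cT A (some i) T * h T =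
      ∑ i ∈ A, ∑ T ∈ I, wj cT A (some i) T * HH h A a b c d (some i) (bt a (some i) T)
        (bt b (some i) T) (bt c (some i) T) (bt d (some i) T) := by
    apply sum_congr rfl
    intro i _
    apply sum_congr rfl
    intro T hT
    simp only [wj, HH, bt]
    by_cases hE : T ∩ A = {i}
    · have := set_eq D (K.hI T hT)
      rw [hE] at this
      simp only [HP]
      rw [← this]
    · simp [hE]
  have f3 : ∑ T ∈ I, wj cT A none T * h T =
      ∑ T ∈ I, wj cT A none T * HH h A a b c d none (bt a none T) (bt b none T) (bt c none T)
        (bt d none T) + lam * HP h A a b c d true true true true -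
      (HP h A a b c d true true true true - HP h A a b c d false true true true) *
        ev I cT A a -
      (HP h A a b c d true true true true - HP h A a b c d true false true true) *
        ev I cT A b -
      (HP h A a b c d true true true true - HP h A a b c d true true false true) *
        ev I cT A c -
      (HP h A a b c d true true true true - HP h A a b c d true true true false) *
        ev I cT A d := by
    rw [← marg_none a, ← marg_none b, ← marg_none c, ← marg_none d, ← hrelA K hAX]
    simp only [mul_sum, sum_mul, ← sum_add_distrib, ← sum_sub_distrib]
    apply sum_congr rfl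
    intro T hT
    have e1 : wj cT A none T * h T = wj cT A none T * HP h A a b c d (decide (a ∈ T))
      (decide (b ∈ T)) (decide (c ∈ T)) (decide (d ∈ T)) := by
      simp only [wj]
      by_cases hE : A ⊆ T
      · have := set_eq D (K.hI T hT)
        rw [inter_eq_right.mpr hE] at this
        simp only [HP]
        rw [← this]
      · simp [hE]
    rw [e1]
    simp only [HH, HN, bt, Bool.not_not]
    ring
  have hX : h (A ∪ {a, b, c, d}) = HP h A a b c d true true true true := by
    have : ({a, b, c, d} : Finset W) = bs a b c d true true true true := by
      ext t
      simp [mem_bs]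
    rw [this]
    rfl
  rw [f1, f2, f3, hX]
  linarith

end main

end Pool.Agent.H41.FM
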