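import Mathlib

set_option autoImplicit false

/-!
# Four moving points: the local inequalities (prices)

`a, b, c, d` are the moving points, `d1 ≥ d2 ≥ d3 ≥ d4` their degrees.
`ta, tb, tc, td` are the values of `g` at the triples `bcd, acd, abd, abc`, and `m` its value at the
quadruple.  The other letters are the values of `h_j - g`.
-/

namespace Pool.Agent.H41.FM

/-- the inequalities between the values at one fixed point -/
structure Hd (ta tb tc td m ab ac ad bc bd cd abc abd acd bcd A : ℝ) : Prop where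
  n1 : 0 ≤ ab
  n2 : 0 ≤ ac
  n3 : 0 ≤ ad
  n4 : 0 ≤ bc
  n5 : 0 ≤ bd
  n6 : 0 ≤ cd
  s1 : ab ≤ abc
  s2 : ac ≤ abc
  s3 : bc ≤ abc
  s4 : abc ≤ A
  s5 : abd ≤ A
  s6 : acd ≤ A
  s7 : bcd ≤ A
  p1 : ab + cd ≤ A
  p2 : ac + bd ≤ A
  p3 : ad + bc ≤ A
  t1 : ab + ac - td ≤ abc
  t2 : ab + bc - td ≤ abc
  t3 : ac + ad - tb ≤ acd
  t4 : bc + bd - ta ≤ bcd
  t5 : bd + cd - ta ≤ bcd
  q1 : abc + ad - (m - td - ta) ≤ A
  q2 : abc + bd - (m - td - tb) ≤ A
  q3 : ab + acd - (m - tb - ta) ≤ A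
  q4 : ab + bcd - (m - ta - tb) ≤ A
  q5 : ac + abd - (m - tc - ta) ≤ A
  q6 : bc + abd - (m - tc - tb) ≤ A
  q7 : abc + abd - ab - (m - td - tc) ≤ A

/-- `pa, pb, pc, pd` and `r` (for the pair `ab`) are prices for the pair weights
`zab, zac, zad, zbd` -/
structure Pr (ta tb tc td m ab ac ad bc bd cd abc abd acd bcd A zab zac zad zbd
    pa pb pc pd r : ℝ) : Prop where
  na : 0 ≤ pa
  nb : 0 ≤ pb
  nc : 0 ≤ pc
  nd : 0 ≤ pd
  eab : ab ≤ zab + pa + pb + r
  eac : ac ≤ zac + pa + pc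
  ead : ad ≤ zad + pa + pd
  ebc : bc ≤ pb + pc
  ebd : bd ≤ zbd + pb + pd
  ecd : cd ≤ pc + pd
  eabc : abc + td ≤ zab + zac + pa + pb + pc + r
  eabd : abd + tc ≤ zab + zad + zbd + pa + pb + pd + r
  eacd : acd + tb ≤ zac + zad + pa + pc + pd
  ebcd : bcd + ta ≤ zbd + pb + pc + pd
  eA : A + m ≤ zab + zac + zad + zbd + pa + pb + pc + pd + r

variable {ta tb tc td m ab ac ad bc bd cd abc abd acd bcd A d1 d2 d3 d4 s E e1 e2 : ℝ}

/-- regime 0 -/
theorem loc0 (H : Hd ta tb tc td m ab ac ad bc bd cd abc abd acd bcd A)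
    (hE : m ≤ ta + tb + td) :
    ∃ pa pb pc pd : ℝ, Pr ta tb tc td m ab ac ad bc bd cd abc abd acd bcd A
      0 td (m - td - ta) ta pa pb pc pd 0 ∧
      d1 * pa + d2 * pb + d3 * pc + d4 * pd ≤ d4 * A + (d3 - d4) * abc + (d2 - d3) * ab := by
  obtain ⟨n1, n2, n3, n4, n5, n6, s1, s2, s3, s4, s5, s6, s7, p1, p2, p3, t1, t2, t3, t4, t5,
    q1, q2, q3, q4, q5, q6, q7⟩ := H
  refine ⟨0, ab, abc - ab, A - abc, ?_, ?_⟩
  · constructor <;> linarith
  · apply le_of_eq
    ring

/-- regime 1, at the fixed point with the largest load of `ab` -/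
theorem loc1F (H : Hd ta tb tc td m ab ac ad bc bd cd abc abd acd bcd A)
    (hE : m = ta + tb + td + E) (hE0 : 0 ≤ E) (htd : 0 ≤ td) :
    ∃ pa pb pc pd r : ℝ, Pr ta tb tc td m ab ac ad bc bd cd abc abd acd bcd A
      (td + E) 0 tb ta pa pb pc pd r ∧
      d1 * pa + d2 * pb + d3 * pc + d4 * pd + (d3 + s) * r ≤
        d4 * A + (d3 - d4) * abc + s * ab - (s * td + E * (d3 + s - d4)) := by
  obtain ⟨n1, n2, n3, n4, n5, n6, s1, s2, s3, s4, s5, s6, s7, p1, p2, p3, t1, t2, t3, t4, t5,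
    q1, q2, q3, q4, q5, q6, q7⟩ := H
  refine ⟨0, 0, abc - ab + td, A - abc + E, ab - td - E, ?_, ?_⟩
  · constructor <;> linarith
  · apply le_of_eq
    ring

/-- regime 1, at the other fixed points -/
theorem loc1 (H : Hd ta tb tc td m ab ac ad bc bd cd abc abd acd bcd A)
    (hE : m = ta + tb + td + E) (hE0 : 0 ≤ E) (hta : 0 ≤ ta) (htb : 0 ≤ tb) (htd : 0 ≤ td)
    (hs : 0 ≤ s) (h34 : d4 ≤ d3) :
    ∃ pa pb pc pd r : ℝ, 0 ≤ r ∧ Pr ta tb tc td m ab ac ad bc bd cd abc abd acd bcd A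
      (td + E) 0 tb ta pa pb pc pd r ∧
      d1 * pa + d2 * pb + d3 * pc + d4 * pd + (d3 + s) * r ≤
        d4 * A + (d3 - d4) * abc + s * ab := by
  by_cases hr : td + E ≤ ab
  · obtain ⟨n1, n2, n3, n4, n5, n6, s1, s2, s3, s4, s5, s6, s7, p1, p2, p3, t1, t2, t3, t4, t5,
      q1, q2, q3, q4, q5, q6, q7⟩ := H
    refine ⟨0, 0, abc - ab + td, A - abc + E, ab - td - E, by linarith, ?_, ?_⟩
    · constructor <;> linarith
    · have h1 : 0 ≤ s * td := mul_nonneg hs htd
      have h2 : 0 ≤ E * (d3 + s - d4) := mul_nonneg hE0 (by linarith)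
      have h3 : d1 * 0 + d2 * 0 + d3 * (abc - ab + td) + d4 * (A - abc + E) +
          (d3 + s) * (ab - td - E) =
          d4 * A + (d3 - d4) * abc + s * ab - (s * td + E * (d3 + s - d4)) := by ring
      rw [h3]
      linarith
  · push Not at hr
    obtain ⟨n1, n2, n3, n4, n5, n6, s1, s2, s3, s4, s5, s6, s7, p1, p2, p3, t1, t2, t3, t4, t5,
      q1, q2, q3, q4, q5, q6, q7⟩ := H
    obtain ⟨mu, hmu1, hmu2, hmu3, hmu⟩ : ∃ mu : ℝ, ac ≤ mu ∧ bc ≤ mu ∧ abc - E ≤ mu ∧
        (mu = ac ∨ mu = bc ∨ mu = abc - E) := by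
      refine ⟨max ac (max bc (abc - E)), le_max_left _ _,
        (le_max_left _ _).trans (le_max_right _ _), (le_max_right _ _).trans (le_max_right _ _), ?_⟩
      rcases max_choice ac (max bc (abc - E)) with h | h
      · exact Or.inl h
      · rcases max_choice bc (abc - E) with h' | h'
        · exact Or.inr (Or.inl (h.trans h'))
        · exact Or.inr (Or.inr (h.trans h'))
    have hle : mu ≤ abc := by
      rcases hmu with h | h | h <;> linarith
    refine ⟨0, 0, mu, A - mu, 0, le_refl _, ?_, ?_⟩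
    · rcases hmu with h | h | h
      all_goals
        constructor <;> linarith
    · have h1 : 0 ≤ (d3 - d4) * (abc - mu) := mul_nonneg (by linarith) (by linarith)
      have h2 : 0 ≤ s * ab := mul_nonneg hs n1
      nlinarith [h1, h2]

/-- regime 2 -/
theorem loc2 (H : Hd ta tb tc td m ab ac ad bc bd cd abc abd acd bcd A)
    (hE : m = ta + tb + td + e1 + e2) (he1 : 0 ≤ e1) (he2 : 0 ≤ e2) (hta : 0 ≤ ta) (htb : 0 ≤ tb)
    (htd : 0 ≤ td) (h34 : d4 ≤ d3) (h23 : d3 ≤ d2) (hee : e1 * (d3 - d4) = e2 * (d2 - d3)) :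
    ∃ pa pb pc pd r : ℝ, 0 ≤ r ∧ Pr ta tb tc td m ab ac ad bc bd cd abc abd acd bcd A
      (td + e1) 0 (tb + e2) ta pa pb pc pd r ∧
      d1 * pa + d2 * pb + d3 * pc + d4 * pd + d3 * r ≤ d4 * A + (d3 - d4) * abc := by
  obtain ⟨n1, n2, n3, n4, n5, n6, s1, s2, s3, s4, s5, s6, s7, p1, p2, p3, t1, t2, t3, t4, t5,
    q1, q2, q3, q4, q5, q6, q7⟩ := H
  -- the price of `b`
  obtain ⟨w, hw0, hw1, hw2, hw⟩ : ∃ w : ℝ, 0 ≤ w ∧ ab + bcd - A - td - e1 ≤ w ∧
      abc + bd - A - ta - e1 ≤ w ∧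
      (w = 0 ∨ w = ab + bcd - A - td - e1 ∨ w = abc + bd - A - ta - e1) := by
    refine ⟨max 0 (max (ab + bcd - A - td - e1) (abc + bd - A - ta - e1)), le_max_left _ _,
      (le_max_left _ _).trans (le_max_right _ _), (le_max_right _ _).trans (le_max_right _ _), ?_⟩
    rcases max_choice (0 : ℝ) (max (ab + bcd - A - td - e1) (abc + bd - A - ta - e1)) with h | h
    · exact Or.inl h
    · rcases max_choice (ab + bcd - A - td - e1) (abc + bd - A - ta - e1) with h' | h'
      · exact Or.inr (Or.inl (h.trans h'))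
      · exact Or.inr (Or.inr (h.trans h'))
  have hwe : w ≤ e2 := by
    rcases hw with h | h | h <;> linarith
  -- the price of the pair
  obtain ⟨r, hr0, hr1, hr⟩ : ∃ r : ℝ, 0 ≤ r ∧ ab - td - e1 - w ≤ r ∧
      (r = 0 ∨ r = ab - td - e1 - w) := by
    refine ⟨max 0 (ab - td - e1 - w), le_max_left _ _, le_max_right _ _, ?_⟩
    rcases max_choice (0 : ℝ) (ab - td - e1 - w) with h | h
    · exact Or.inl h
    · exact Or.inr h
  -- the price of `c` and of the pair
  obtain ⟨g, hg1, hg2, hg3, hg⟩ : ∃ g : ℝ, abc - e1 - w ≤ g ∧ r + ac ≤ g ∧ r + bc - w ≤ g ∧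
      (g = abc - e1 - w ∨ g = r + ac ∨ g = r + bc - w) := by
    refine ⟨max (abc - e1 - w) (max (r + ac) (r + bc - w)), le_max_left _ _,
      (le_max_left _ _).trans (le_max_right _ _), (le_max_right _ _).trans (le_max_right _ _), ?_⟩
    rcases max_choice (abc - e1 - w) (max (r + ac) (r + bc - w)) with h | h
    · exact Or.inl h
    · rcases max_choice (r + ac) (r + bc - w) with h' | h'
      · exact Or.inr (Or.inl (h.trans h'))
      · exact Or.inr (Or.inr (h.trans h'))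
  have hkey : w = 0 ∧ g ≤ abc ∨ g = abc - e1 - w := by
    rcases hw with h | h | h
    · left
      refine ⟨h, ?_⟩
      rcases hg with h' | h' | h' <;> rcases hr with h'' | h'' <;> linarith
    · right
      rcases hg with h' | h' | h'
      · exact h'
      · apply le_antisymm _ hg1
        rcases hr with h'' | h'' <;> linarith
      · apply le_antisymm _ hg1
        rcases hr with h'' | h'' <;> linarith
    · right
      rcases hg with h' | h' | h'
      · exact h'
      · apply le_antisymm _ hg1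
        rcases hr with h'' | h'' <;> linarith
      · apply le_antisymm _ hg1
        rcases hr with h'' | h'' <;> linarith
  refine ⟨0, w, g - r, A - w - g, r, hr0, ?_, ?_⟩
  · rcases hkey with ⟨h1, h2⟩ | h1
    · rcases hg with h' | h' | h' <;> rcases hr with h'' | h''
      all_goals
        constructor <;> linarith
    · rcases hw with h' | h' | h' <;> rcases hr with h'' | h''
      all_goals
        constructor <;> linarith
  · rcases hkey with ⟨h1, h2⟩ | h1
    · subst h1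
      have h3 : 0 ≤ (d3 - d4) * (abc - g) := mul_nonneg (by linarith) (by linarith)
      nlinarith [h3]
    · have h3 : 0 ≤ (d2 - d3) * (e2 - w) := mul_nonneg (by linarith) (by linarith)
      have h4 : d1 * 0 + d2 * w + d3 * (g - r) + d4 * (A - w - g) + d3 * r =
          d4 * A + (d3 - d4) * abc - (d2 - d3) * (e2 - w) +
            (e2 * (d2 - d3) - e1 * (d3 - d4)) := by
        rw [h1]; ring
      rw [h4, hee]
      linarith

end Pool.Agent.H41.FM
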