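import Pool.Agent.H41.FM.Push

set_option autoImplicit false
set_option maxHeartbeats 1000000

/-!
# Moving marks of at most four types
-/

namespace Pool.Agent.H41.FM

open Finset Pool.Agent.H20 Pool.Agent.H20.MG

universe u v w

/-- `A` and `B` have the same type for `f`. -/
def SameType {V : Type} [DecidableEq V] (f : Finset V → ℝ) (A B : Finset V) : Prop :=
  ∀ S : Finset V, Disjoint S A → Disjoint S B → f (S ∪ A) = f (S ∪ B)

section main

variable {V W : Type} [Fintype V] [Fintype W] [DecidableEq V] [DecidableEq W]

lemma ef_comp {f : Finset V → ℝ} (hf : EF f) (π : V → W) :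
    EF (fun T : Finset W => f (fib π T)) := by
  refine ⟨?_, fun T => ?_, fun A B C hAB hAC hBC => ?_⟩
  · change f (fib π ∅) = 0
    have : fib π (∅ : Finset W) = ∅ := by ext v; simp [mem_fib]
    rw [this, hf.empty]
  · change f (fib π Tᶜ) = f (fib π T)
    rw [fib_compl, hf.symm]
  · change f (fib π (A ∪ B)) + f (fib π (A ∪ C)) + f (fib π (B ∪ C)) ≤
      f (fib π A) + f (fib π B) + f (fib π C) + f (fib π (A ∪ B ∪ C))
    rw [fib_union, fib_union, fib_union, fib_union, fib_union]
    exact hf.ineq _ _ _ (fib_disjoint π hAB) (fib_disjoint π hAC) (fib_disjoint π hBC)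

/-- the boundary divisors which meet the class do not separate two marks of `H` from two others -/
def ConstN (c : Finset W → ℝ) (H : Finset W) : Prop :=
  ∀ T, c T ≠ 0 → 2 ≤ (T ∩ H).card → (H \ T).card ≤ 1

/-- at most four occupied moving places -/
lemma base_four {c : Finset W → ℝ} {ψ : W → ℝ} (hc : NCls c ψ) (hW : 7 ≤ Fintype.card W)
    {H : Finset W} (hH : ConstN c H) {f : Finset V → ℝ} (hf : EF f) (π : V → W)
    (hN : ((univ.image π) \ H).card ≤ 4) : 0 ≤ LD (fun T => f (fib π T)) c ψ := by
  classical
  have hF := ef_comp hf π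
  -- it is enough to find `w0`, `A` and `M`
  have fin : ∀ (w0 : W) (A M : Finset W), M.card = 4 → 2 ≤ A.card → Disjoint M A →
      w0 ∉ A ∪ M → ConstN c (insert w0 A) → univ.image π ⊆ insert w0 (A ∪ M) →
      0 ≤ LD (fun T => f (fib π T)) c ψ := by
    intro w0 A M hM hA hdj hw0 hcn hocc
    have hw0A : w0 ∉ A := fun h => hw0 (mem_union_left _ h)
    refine LD_four hc hF (by omega) hM hA hdj hw0 ?_ ?_
    · intro T hT h0 h2
      have h3 := hcn T hT (h2.trans (card_le_card (inter_subset_inter_left (subset_insert _ _))))
      intro a ha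
      by_contra haT
      have : ({w0, a} : Finset W) ⊆ insert w0 A \ T := by
        intro t ht
        simp only [mem_insert, mem_singleton] at ht
        rw [mem_sdiff, mem_insert]
        rcases ht with rfl | rfl
        · exact ⟨Or.inl rfl, h0⟩
        · exact ⟨Or.inr ha, haT⟩
      have h4 := card_le_card this
      rw [card_pair (fun h : w0 = a => hw0A (h ▸ ha))] at h4
      omega
    · intro T
      beta_reduce
      congr 1
      ext v
      rw [mem_fib, mem_fib, mem_inter]
      exact ⟨fun h => ⟨h, hocc (mem_image_of_mem π (mem_univ v))⟩, fun h => h.1⟩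
  set O := univ.image π with hO
  by_cases h3 : 3 ≤ (H \ (O \ H)).card ∧ 7 ≤ (H ∪ O).card
  · -- the fixed marks
    obtain ⟨M, hM1, hM2, hM4⟩ : ∃ M : Finset W, O \ H ⊆ M ∧ M ⊆ H ∪ O ∧ M.card = 4 := by
      obtain ⟨M, h1, h2, h4⟩ := exists_subsuperset_card_eq
        (s := O \ H) (t := H ∪ O) (n := 4) (sdiff_subset.trans subset_union_right) hN (by omega)
      exact ⟨M, h1, h2, h4⟩
    have hHM : 3 ≤ ((H ∪ O) \ M).card := by
      have := le_card_sdiff M (H ∪ O)
      omega
    obtain ⟨w0, hw0⟩ := card_pos.1 (by omega : 0 < ((H ∪ O) \ M).card)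
    have hsubH : (H ∪ O) \ M ⊆ H := by
      intro t ht
      rw [mem_sdiff, mem_union] at ht
      by_contra hcon
      rcases ht.1 with h | h
      · exact hcon h
      · exact ht.2 (hM1 (mem_sdiff.2 ⟨h, hcon⟩))
    refine fin w0 (((H ∪ O) \ M).erase w0) M hM4 ?_ ?_ ?_ ?_ ?_
    · rw [card_erase_of_mem hw0]; omega
    · rw [disjoint_left]
      intro t ht ht'
      exact (mem_sdiff.1 (mem_of_mem_erase ht')).2 ht
    · rw [mem_union]
      rintro (h | h)
      · exact notMem_erase _ _ h
      · exact (mem_sdiff.1 hw0).2 h
    · rw [insert_erase hw0]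
      intro T hT h2
      have h5 := hH T hT (h2.trans (card_le_card (inter_subset_inter_left hsubH)))
      exact (card_le_card (sdiff_subset_sdiff hsubH (Subset.refl _))).trans h5
    · intro t ht
      rw [mem_insert, mem_union, mem_erase, mem_sdiff, mem_union]
      by_cases h : t = w0
      · exact Or.inl h
      · by_cases h' : t ∈ M
        · exact Or.inr (Or.inr h')
        · exact Or.inr (Or.inl ⟨h, Or.inr ht, h'⟩)
  · -- at most six occupied places
    have hO6 : O.card ≤ 7 := by
      by_contra hcon
      apply h3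
      have h5 : H \ (O \ H) = H := by
        ext t
        simp only [mem_sdiff]
        tauto
      rw [h5]
      have h6 := card_le_card (subset_union_right : O ⊆ H ∪ O)
      have h7 : O.card ≤ (O \ H).card + H.card := by
        rw [← card_sdiff_add_card_inter O H]
        have := card_le_card (inter_subset_right : O ∩ H ⊆ H)
        omega
      omega
    obtain ⟨X, hX1, hX7⟩ : ∃ X : Finset W, O ⊆ X ∧ X.card = 7 :=
      exists_superset_card_eq hO6 (by omega)
    obtain ⟨M, hM1, hM4⟩ : ∃ M : Finset W, M ⊆ X ∧ M.card = 4 :=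
      exists_subset_card_eq (by omega)
    have hXM : (X \ M).card = 3 := by rw [card_sdiff_of_subset hM1]; omega
    obtain ⟨w0, hw0⟩ := card_pos.1 (by omega : 0 < (X \ M).card)
    refine fin w0 ((X \ M).erase w0) M hM4 ?_ ?_ ?_ ?_ ?_
    · rw [card_erase_of_mem hw0]; omega
    · rw [disjoint_left]
      intro t ht ht'
      exact (mem_sdiff.1 (mem_of_mem_erase ht')).2 ht
    · rw [mem_union]
      rintro (h | h)
      · exact notMem_erase _ _ h
      · exact (mem_sdiff.1 hw0).2 h
    · rw [insert_erase hw0]
      intro T _ h2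
      have h5 := card_sdiff_add_card_inter (X \ M) T
      rw [inter_comm] at h5
      omega
    · intro t ht
      rw [mem_insert, mem_union, mem_erase, mem_sdiff]
      by_cases h : t = w0
      · exact Or.inl h
      · by_cases h' : t ∈ M
        · exact Or.inr (Or.inr h')
        · exact Or.inr (Or.inl ⟨h, hX1 ht, h'⟩)

/-- **Reduction to moving marks of pairwise distinct types.** -/
theorem main_ind {c : Finset W → ℝ} {ψ : W → ℝ} (hc : NCls c ψ) (hW : 7 ≤ Fintype.card W)
    {H : Finset W} (hH : ConstN c H) {f : Finset V → ℝ} (hf : EF f) (N : ℕ) :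
    ∀ π : V → W, ((univ.image π) \ H).card ≤ N →
      (∀ φ : W → W, (∀ x ∈ H, φ x ∈ H) → 5 ≤ ((univ.image (φ ∘ π)) \ H).card →
        ∃ i ∈ (univ.image (φ ∘ π)) \ H, ∃ j ∈ (univ.image (φ ∘ π)) \ H, i ≠ j ∧
          SameType f (fib (φ ∘ π) {i}) (fib (φ ∘ π) {j})) →
      0 ≤ LD (fun T => f (fib π T)) c ψ := by
  induction N with
  | zero =>
    intro π hN _
    exact base_four hc hW hH hf π (by omega)
  | succ N ih =>
    intro π hN hyp
    by_cases h4 : ((univ.image π) \ H).card ≤ 4
    · exact base_four hc hW hH hf π h4
    obtain ⟨i, hi, j, hj, hij, htype⟩ := hyp id (fun x h => h) (by simpa using (by omega : 5 ≤ _))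
    rw [Function.id_comp] at hi hj htype
    have h3 : ∃ k, k ≠ i ∧ k ≠ j := by
      have h1 : 0 < ((univ.erase i).erase j).card := by
        rw [card_erase_of_mem (by simp [hij.symm]),
          card_erase_of_mem (mem_univ _), card_univ]
        omega
      obtain ⟨k, hk⟩ := card_pos.mp h1
      simp only [mem_erase, mem_univ, and_true] at hk
      exact ⟨k, hk.2, hk.1⟩
    -- merging `b` into `a`
    have step : ∀ a b : W, a ∈ (univ.image π) \ H → b ∈ (univ.image π) \ H → a ≠ b →
        0 ≤ LD (fun T => f (fib π (mg b a T))) c ψ := by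
      intro a b ha hb hab
      set φ : W → W := fun x => if x = b then a else x with hφ
      have hφH : ∀ x ∈ H, φ x ∈ H := by
        intro x hx
        change (if x = b then a else x) ∈ H
        rw [if_neg]
        · exact hx
        · intro h
          exact (mem_sdiff.1 hb).2 (h ▸ hx)
      have key : (fun T : Finset W => f (fib π (mg b a T))) =
          (fun T : Finset W => f (fib (φ ∘ π) T)) := by
        funext T
        congr 1
        ext v
        rw [mem_fib, mem_fib, mem_mg]
        rfl
      rw [key]
      apply ih (φ ∘ π)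
      · have hsub : (univ.image (φ ∘ π)) \ H ⊆ ((univ.image π) \ H).erase b := by
          intro x hx
          rw [mem_sdiff, mem_image] at hx
          obtain ⟨⟨v, _, rfl⟩, hxH⟩ := hx
          rw [mem_erase]
          change (if π v = b then a else π v) ≠ b ∧ (if π v = b then a else π v) ∈ _
          change (if π v = b then a else π v) ∉ H at hxH
          split_ifs at hxH ⊢ with h
          · exact ⟨hab, ha⟩
          · exact ⟨h, mem_sdiff.2 ⟨mem_image_of_mem π (mem_univ v), hxH⟩⟩
        have := card_le_card hsub
        rw [card_erase_of_mem hb] at this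
        omega
      · intro φ' hφ' h5
        exact hyp (φ' ∘ φ) (fun x hx => hφ' _ (hφH x hx)) h5
    have hm := merge (F := fun T : Finset W => f (fib π T)) hc (ef_comp hf π) hij h3
      (by
        intro S hiS hjS
        have e : ∀ x, fib π (insert x S) = fib π S ∪ fib π {x} := by
          intro x
          rw [← fib_union, union_comm]
          rfl
        rw [e i, e j]
        apply htype
        · exact fib_disjoint π (by simpa using hiS)
        · exact fib_disjoint π (by simpa using hjS))
    have h1 := step i j hi hj hij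
    have h2 := step j i hj hi hij.symm
    linarith

end main

end Pool.Agent.H41.FM
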