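import Pool.Agent.H41.FM.Sets

set_option autoImplicit false
set_option maxHeartbeats 1000000

/-!
# Four moving points: the inequality for ordered degrees
-/

namespace Pool.Agent.H41.FM

open Finset

universe u

variable {W : Type u} [DecidableEq W]

/-- the degree of the moving point `x` -/
def ev (I : Finset (Finset W)) (cT : Finset W → ℝ) (A : Finset W) (x : W) : ℝ :=
  ∑ T ∈ I, (if A ⊆ T ∧ x ∉ T then cT T else 0)

/-- weights of the collisions at the fixed points -/
def wj (cT : Finset W → ℝ) (A : Finset W) : Option W → Finset W → ℝ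
  | none, T => if A ⊆ T then cT T else 0
  | some i, T => if T ∩ A = {i} then cT T else 0

/-- weights of the collisions away from the fixed points -/
def wg (cT : Finset W → ℝ) (A : Finset W) (T : Finset W) : ℝ := if T ∩ A = ∅ then cT T else 0

/-- the bits of a collision -/
def bt (x : W) : Option W → Finset W → Bool
  | none, T => !decide (x ∈ T)
  | some _, T => decide (x ∈ T)

/-- the functions at the fixed points -/
def HH (h : Finset W → ℝ) (A : Finset W) (a b c d : W) : Option W → F4
  | none => HN h A a b c d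
  | some i => HP h {i} a b c d

/-- the collision data -/
structure Col (I : Finset (Finset W)) (cT : Finset W → ℝ) (A X : Finset W) (lam : ℝ) : Prop where
  hc : ∀ T, 0 ≤ cT T
  hI : ∀ T ∈ I, T ⊆ X
  hpair : ∀ i ∈ X, ∀ j ∈ X, i ≠ j → ∑ T ∈ I.filter (fun T => i ∈ T ∧ j ∈ T), cT T = lam
  hA : 2 ≤ A.card
  hsupp : ∀ T ∈ I, cT T ≠ 0 → 2 ≤ (T ∩ A).card → A ⊆ T

variable {I : Finset (Finset W)} {cT : Finset W → ℝ} {A X : Finset W} {lam : ℝ}

lemma part (K : Col I cT A X lam) {T : Finset W} (hT : T ∈ I) :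
    cT T = wg cT A T + ∑ i ∈ A, wj cT A (some i) T + wj cT A none T := by
  have hA := K.hA
  simp only [wg, wj]
  by_cases hz : cT T = 0
  · simp [hz]
  by_cases hAT : A ⊆ T
  · have e1 : T ∩ A = A := inter_eq_right.mpr hAT
    rw [e1, if_pos hAT, if_neg, sum_eq_zero]
    · simp
    · intro i _
      rw [if_neg]
      intro h
      rw [h] at hA
      simp at hA
    · intro h
      rw [h] at hA
      simp at hA
  · have hcard : (T ∩ A).card ≤ 1 := by
      by_contra hcon
      exact hAT (K.hsupp T hT hz (by omega))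
    rw [if_neg hAT, add_zero]
    rcases (T ∩ A).eq_empty_or_nonempty with hE | ⟨i0, hi0⟩
    · rw [hE, if_pos rfl, sum_eq_zero, add_zero]
      intro i _
      rw [if_neg]
      intro h
      exact (singleton_ne_empty i) h.symm
    · have hE : T ∩ A = {i0} := by
        apply eq_singleton_iff_unique_mem.mpr
        exact ⟨hi0, fun b hb => card_le_one.mp hcard b hb i0 hi0⟩
      rw [hE, if_neg (singleton_ne_empty i0), zero_add,
        sum_eq_single_of_mem i0 (mem_inter.1 hi0).2]
      · rw [if_pos rfl]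
      · intro b _ hb
        rw [if_neg]
        intro h
        exact hb (singleton_inj.1 h).symm

lemma split_sum (K : Col I cT A X lam) (φ : Finset W → ℝ) :
    ∑ T ∈ I, cT T * φ T = ∑ T ∈ I, wg cT A T * φ T +
      ∑ i ∈ A, ∑ T ∈ I, wj cT A (some i) T * φ T + ∑ T ∈ I, wj cT A none T * φ T := by
  rw [sum_comm, ← sum_add_distrib, ← sum_add_distrib]
  apply sum_congr rfl
  intro T hT
  rw [← sum_mul, ← add_mul, ← add_mul, ← part K hT]

lemma hrel (K : Col I cT A X lam) {i j : W} (hi : i ∈ X) (hj : j ∈ X) (hij : i ≠ j) :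
    ∑ T ∈ I, cT T * iv (decide (i ∈ T) && decide (j ∈ T)) = lam := by
  rw [← K.hpair i hi j hj hij, sum_filter]
  apply sum_congr rfl
  intro T _
  by_cases h1 : i ∈ T <;> by_cases h2 : j ∈ T <;> simp [h1, h2]

lemma hrelA (K : Col I cT A X lam) (hAX : A ⊆ X) : ∑ T ∈ I, wj cT A none T = lam := by
  obtain ⟨a0, ha0, b0, hb0, hab0⟩ := one_lt_card.mp (by have := K.hA; omega : 1 < A.card)
  rw [← hrel K (hAX ha0) (hAX hb0) hab0]
  apply sum_congr rfl
  intro T hT
  simp only [wj]
  by_cases hcT : cT T = 0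
  · simp [hcT]
  by_cases hAT : A ⊆ T
  · rw [if_pos hAT]
    simp [hAT ha0, hAT hb0]
  · rw [if_neg hAT]
    have : ¬ (a0 ∈ T ∧ b0 ∈ T) := by
      rintro ⟨h3, h4⟩
      apply hAT
      apply K.hsupp T hT hcT
      rw [← card_pair hab0]
      apply card_le_card
      intro t ht
      simp only [mem_insert, mem_singleton] at ht
      rcases ht with rfl | rfl
      · exact mem_inter.2 ⟨h3, ha0⟩
      · exact mem_inter.2 ⟨h4, hb0⟩
    by_cases h1 : a0 ∈ T <;> by_cases h2 : b0 ∈ T <;> simp_all

lemma marg_none (x : W) : ∑ T ∈ I, wj cT A none T * iv (bt x none T) = ev I cT A x := by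
  unfold ev
  apply sum_congr rfl
  intro T _
  simp only [wj, bt]
  by_cases h1 : A ⊆ T <;> by_cases h2 : x ∈ T <;> simp [h1, h2]

lemma none_iv (K : Col I cT A X lam) (hAX : A ⊆ X) (x : W) :
    ∑ T ∈ I, wj cT A none T * iv (decide (x ∈ T)) = lam - ev I cT A x := by
  rw [← hrelA K hAX, ← marg_none, ← sum_sub_distrib]
  apply sum_congr rfl
  intro T _
  simp only [bt, iv_not]
  ring

lemma marg_some (K : Col I cT A X lam) (hAX : A ⊆ X) {i x : W} (hi : i ∈ A) (hx : x ∉ A)
    (hxX : x ∈ X) : ∑ T ∈ I, wj cT A (some i) T * iv (bt x (some i) T) = ev I cT A x := by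
  have h1 := hrel K (hAX hi) hxX (fun h => hx (h ▸ hi))
  rw [split_sum K] at h1
  have e1 : ∑ T ∈ I, wg cT A T * iv (decide (i ∈ T) && decide (x ∈ T)) = 0 := by
    apply sum_eq_zero
    intro T _
    simp only [wg]
    by_cases h : T ∩ A = ∅
    · have : i ∉ T := by
        intro h'
        have : i ∈ T ∩ A := mem_inter.2 ⟨h', hi⟩
        rw [h] at this
        simp at this
      simp [this]
    · simp [h]
  have e2 : ∑ i' ∈ A, ∑ T ∈ I, wj cT A (some i') T * iv (decide (i ∈ T) && decide (x ∈ T)) =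
      ∑ T ∈ I, wj cT A (some i) T * iv (bt x (some i) T) := by
    rw [sum_eq_single_of_mem i hi]
    · apply sum_congr rfl
      intro T _
      simp only [wj, bt]
      by_cases h : T ∩ A = {i}
      · have : i ∈ T := by
          have : i ∈ T ∩ A := by rw [h]; exact mem_singleton_self i
          exact (mem_inter.1 this).1
        simp [this]
      · simp [h]
    · intro i' _ hii
      apply sum_eq_zero
      intro T _
      simp only [wj]
      by_cases h : T ∩ A = {i'}
      · have : i ∉ T := by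
          intro h'
          have : i ∈ T ∩ A := mem_inter.2 ⟨h', hi⟩
          rw [h, mem_singleton] at this
          exact hii this.symm
        simp [this]
      · simp [h]
  have e3 : ∑ T ∈ I, wj cT A none T * iv (decide (i ∈ T) && decide (x ∈ T)) =
      lam - ev I cT A x := by
    rw [← none_iv K hAX]
    apply sum_congr rfl
    intro T _
    simp only [wj]
    by_cases h : A ⊆ T
    · simp [h hi]
    · simp [h]
  rw [e1, e2, e3] at h1
  linarith

lemma pair_sum (K : Col I cT A X lam) (hAX : A ⊆ X) {x y : W} (hx : x ∈ X) (hy : y ∈ X)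
    (hxy : x ≠ y) : ∑ T ∈ I, wg cT A T * iv (decide (x ∈ T) && decide (y ∈ T)) +
      ∑ j ∈ insertNone A, ∑ T ∈ I, wj cT A j T * iv (bt x j T && bt y j T) =
      ev I cT A x + ev I cT A y := by
  have h1 := hrel K hx hy hxy
  rw [split_sum K] at h1
  rw [sum_insertNone]
  have e1 : ∑ T ∈ I, wj cT A none T * iv (bt x none T && bt y none T) =
      lam - (lam - ev I cT A x) - (lam - ev I cT A y) +
        ∑ T ∈ I, wj cT A none T * iv (decide (x ∈ T) && decide (y ∈ T)) := by
    rw [← none_iv K hAX, ← none_iv K hAX]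
    nth_rewrite 1 [← hrelA K hAX]
    rw [← sum_sub_distrib, ← sum_sub_distrib, ← sum_add_distrib]
    apply sum_congr rfl
    intro T _
    simp only [bt]
    by_cases h1 : x ∈ T <;> by_cases h2 : y ∈ T <;> simp [h1, h2]
  have e2 : ∑ i ∈ A, ∑ T ∈ I, wj cT A (some i) T * iv (bt x (some i) T && bt y (some i) T) =
      ∑ i ∈ A, ∑ T ∈ I, wj cT A (some i) T * iv (decide (x ∈ T) && decide (y ∈ T)) := rfl
  rw [e1, e2]
  linarith

/-- a set from its parts -/
lemma set_eq {a b c d : W} (D : Dist A a b c d) {T : Finset W} (hT : T ⊆ A ∪ {a, b, c, d}) :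
    T = (T ∩ A) ∪ bs a b c d (decide (a ∈ T)) (decide (b ∈ T)) (decide (c ∈ T))
      (decide (d ∈ T)) := by
  ext t
  simp only [mem_union, mem_inter, mem_bs, decide_eq_true_eq]
  constructor
  · intro ht
    have := hT ht
    simp only [mem_union, mem_insert, mem_singleton] at this
    rcases this with h | rfl | rfl | rfl | rfl
    · exact Or.inl ⟨ht, h⟩
    · exact Or.inr (Or.inl ⟨ht, rfl⟩)
    · exact Or.inr (Or.inr (Or.inl ⟨ht, rfl⟩))
    · exact Or.inr (Or.inr (Or.inr (Or.inl ⟨ht, rfl⟩)))
    · exact Or.inr (Or.inr (Or.inr (Or.inr ⟨ht, rfl⟩)))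
  · rintro (h | ⟨h, rfl⟩ | ⟨h, rfl⟩ | ⟨h, rfl⟩ | ⟨h, rfl⟩)
    · exact h.1
    · exact h
    · exact h
    · exact h
    · exact h

end Pool.Agent.H41.FM
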