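import Pool.Agent.H41.FM.Thm
import Pool.Agent.H20.MG.Base
import Pool.Agent.H20.MG.Crv

set_option autoImplicit false
set_option maxHeartbeats 1000000

/-!
# Four moving points: numerical classes and functions of few marks
-/

namespace Pool.Agent.H41.FM

open Finset Pool.Agent.H20 Pool.Agent.H20.MG

universe u v w

section push

variable {W : Type w} [Fintype W] [DecidableEq W]

/-- the class seen by the subsets of `X` -/
noncomputable def pc (c : Finset W → ℝ) (w0 : W) (X S : Finset W) : ℝ :=
  ∑ T : Finset W, (if w0 ∉ T ∧ T ∩ X = S then c T else 0)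

lemma pc_sum (c : Finset W → ℝ) (w0 : W) (X : Finset W) (φ : Finset W → ℝ) :
    ∑ S ∈ X.powerset, pc c w0 X S * φ S =
      ∑ T : Finset W, (if w0 ∉ T then c T * φ (T ∩ X) else 0) := by
  unfold pc
  simp only [sum_mul]
  rw [sum_comm]
  apply sum_congr rfl
  intro T _
  rw [sum_eq_single_of_mem (T ∩ X) (mem_powerset.2 inter_subset_right)]
  · by_cases h : w0 ∈ T
    · simp [h]
    · simp [h]
  · intro S _ hS
    rw [if_neg, zero_mul]
    rintro ⟨_, h⟩
    exact hS h.symm

lemma sred_inter {F : Finset W → ℝ} (hF : EF F) {w0 : W} {X : Finset W}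
    (hocc : ∀ T, F T = F (T ∩ insert w0 X)) {T : Finset W} (hT : w0 ∉ T) :
    sred F T = sred F (T ∩ X) := by
  have h1 : T ∩ insert w0 X = T ∩ X := by
    ext t
    simp only [mem_inter, mem_insert]
    constructor
    · rintro ⟨h1, h2 | h2⟩
      · exact absurd (h2 ▸ h1) hT
      · exact ⟨h1, h2⟩
    · rintro ⟨h1, h2⟩
      exact ⟨h1, Or.inr h2⟩
  unfold sred
  rw [hocc T, h1]
  congr 1
  rw [← sum_subset (inter_subset_left : T ∩ X ⊆ T)]
  intro x hx hx'
  rw [hocc {x}]
  have : ({x} : Finset W) ∩ insert w0 X = ∅ := by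
    ext t
    simp only [mem_inter, mem_singleton, mem_insert, notMem_empty, iff_false]
    rintro ⟨rfl, h | h⟩
    · exact hT (h ▸ hx)
    · exact hx' (mem_inter.2 ⟨hx, h⟩)
  rw [this, hF.empty]

lemma s0_eq_sred {F : Finset W → ℝ} (hF : EF F) (S : Finset W) : s0 F S = sred F S := by
  by_cases h : 2 ≤ S.card
  · exact s0_big h
  · rw [s0_small (by omega)]
    rcases Nat.lt_or_ge S.card 1 with h1 | h1
    · rw [card_eq_zero.1 (by omega : S.card = 0)]
      simp [sred, hF.empty]
    · obtain ⟨a, rfl⟩ := card_eq_one.1 (by omega : S.card = 1)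
      simp [sred]

/-- `F`-nef functions are nonnegative on the numerical classes with four occupied moving marks. -/
theorem LD_four {c : Finset W → ℝ} {ψ : W → ℝ} (hc : NCls c ψ) {F : Finset W → ℝ} (hF : EF F)
    (hW : 3 ≤ Fintype.card W) {w0 : W} {A M : Finset W} (hM : M.card = 4) (hA : 2 ≤ A.card)
    (hdj : Disjoint M A) (hw0 : w0 ∉ A ∪ M)
    (hconst : ∀ T, c T ≠ 0 → w0 ∉ T → 2 ≤ (T ∩ A).card → A ⊆ T)
    (hocc : ∀ T, F T = F (T ∩ insert w0 (A ∪ M))) : 0 ≤ LD F c ψ := by
  classical
  have hAX : A ⊆ A ∪ M := subset_union_left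
  obtain ⟨X, hX⟩ : ∃ X, X = A ∪ M := ⟨_, rfl⟩
  rw [← hX] at hw0 hocc hAX
  have hTX : ∀ T : Finset W, w0 ∉ T → T ∩ X ∩ A = T ∩ A := by
    intro T _
    rw [inter_assoc, inter_eq_right.2 hAX]
  have hin : ∀ x ∈ X, x ≠ w0 := fun x hx h => hw0 (h ▸ hx)
  -- the pair sums
  have hpair : ∀ i ∈ X, ∀ j ∈ X, i ≠ j →
      ∑ S ∈ X.powerset, pc c w0 X S * (if i ∈ S ∧ j ∈ S then 1 else 0) = ψ w0 := by
    intro i hi j hj hij
    rw [pc_sum, ← hc.pair i j w0 hij (hin i hi) (hin j hj), sum_filter]
    apply sum_congr rfl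
    intro T _
    by_cases h0 : w0 ∈ T
    · simp [h0]
    · simp only [h0, not_false_eq_true, if_true, and_true, mem_inter, hi, hj]
      split_ifs <;> simp
  have Kc : Col X.powerset (pc c w0 X) A X (ψ w0) := by
    refine ⟨fun S => ?_, fun S hS => mem_powerset.1 hS, fun i hi j hj hij => ?_, hA,
      fun S hS hne h2 => ?_⟩
    · apply sum_nonneg
      intro T _
      split_ifs
      · exact hc.nonneg T
      · exact le_refl _
    · rw [← hpair i hi j hj hij, sum_filter]
      apply sum_congr rfl
      intro S _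
      split_ifs <;> simp
    · obtain ⟨T, _, hT⟩ := exists_ne_zero_of_sum_ne_zero hne
      by_cases h : w0 ∉ T ∧ T ∩ X = S
      · rw [if_pos h] at hT
        have hAT := hconst T hT h.1 (by rw [← hTX T h.1, h.2]; exact h2)
        rw [← h.2]
        exact subset_inter hAT hAX
      · rw [if_neg h] at hT
        exact absurd rfl hT
  have Hh : Hyp (fun S => sred F S - Q2 F S) (A ∪ M) := by
    refine ⟨?_, ?_⟩
    · intro P Q R hPQ hPR hQR _
      have hQ := Q2_identity F hPQ hPR hQR
      have hI := hF.ineq P Q R hPQ hPR hQR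
      beta_reduce
      have e : sred F (P ∪ Q) + sred F (P ∪ R) + sred F (Q ∪ R) ≤
          sred F (P ∪ Q ∪ R) + sred F P + sred F Q + sred F R := by
        unfold sred
        rw [sum_union (disjoint_union_left.2 ⟨hPR, hQR⟩), sum_union hPQ, sum_union hPR,
          sum_union hQR]
        linarith
      linarith
    · intro S _ hS
      beta_reduce
      rw [← s0_eq_sred hF]
      rcases Nat.lt_or_ge 1 S.card with h1 | h1
      · obtain ⟨a, b, hab, rfl⟩ := card_eq_two.mp (by omega : S.card = 2)
        rw [Q2_pair F hab, sub_self]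
      · rcases S.eq_empty_or_nonempty with rfl | ⟨a, ha⟩
        · rw [s0_small (by simp), Q2_empty, sub_self]
        · have : S = {a} := by
            apply eq_singleton_iff_unique_mem.mpr
            refine ⟨ha, fun b hb => ?_⟩
            exact card_le_one.mp h1 b hb a ha
          rw [this, s0_small (by simp), Q2_single, sub_self]
  have hmain := four_moving hM hdj Hh (hX ▸ Kc)
  rw [← hX] at hmain
  beta_reduce at hmain
  -- the quadratic part
  have hQ : ∑ S ∈ X.powerset, pc c w0 X S * Q2 F S = ψ w0 * Q2 F X := by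
    have h1 : ∀ S ∈ X.powerset, pc c w0 X S * Q2 F S =
        ∑ i ∈ X, ∑ j ∈ X, (1 / 2 * s0 F {i, j}) *
          (pc c w0 X S * (if i ∈ S ∧ j ∈ S then 1 else 0)) := by
      intro S hS
      rw [mem_powerset] at hS
      unfold Q2
      have h2 : ∑ i ∈ S, ∑ j ∈ S, s0 F {i, j} =
          ∑ i ∈ X, ∑ j ∈ X, (if i ∈ S ∧ j ∈ S then s0 F {i, j} else 0) := by
        have e1 : ∀ i ∈ X, ∑ j ∈ X, (if i ∈ S ∧ j ∈ S then s0 F {i, j} else 0) =
            if i ∈ S then ∑ j ∈ S, s0 F {i, j} else 0 := by
          intro i _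
          by_cases hi : i ∈ S
          · simp only [hi, true_and, if_true]
            rw [← sum_filter, filter_mem_eq_inter, inter_eq_right.2 hS]
          · simp [hi]
        rw [sum_congr rfl e1, ← sum_filter, filter_mem_eq_inter, inter_eq_right.2 hS]
      rw [h2]
      simp only [mul_sum]
      apply sum_congr rfl
      intro i _
      apply sum_congr rfl
      intro j _
      split_ifs <;> ring
    rw [sum_congr rfl h1, sum_comm]
    unfold Q2
    rw [mul_sum, mul_sum]
    apply sum_congr rfl
    intro i hi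
    rw [sum_comm, mul_sum, mul_sum]
    apply sum_congr rfl
    intro j hj
    rw [← mul_sum]
    by_cases hij : i = j
    · subst hij
      rw [s0_small (T := {i, i}) (by simp)]
      ring
    · rw [hpair i hi j hj hij]
      ring
  have hS : ∑ S ∈ X.powerset, pc c w0 X S * sred F S =
      ∑ T : Finset W, (if w0 ∉ T then c T * sred F T else 0) := by
    rw [pc_sum]
    apply sum_congr rfl
    intro T _
    by_cases h : w0 ∈ T
    · simp [h]
    · simp only [h, not_false_eq_true, if_true]
      rw [← sred_inter hF hocc h]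
  have hU : sred F (univ.erase w0) = sred F X := by
    rw [sred_inter hF hocc (notMem_erase _ _)]
    congr 1
    ext t
    simp only [mem_inter, mem_erase, mem_univ, and_true]
    constructor
    · rintro ⟨_, h⟩; exact h
    · intro h; exact ⟨hin t h, h⟩
  rw [LD_base hc hF hW w0, hU, ← hS]
  simp only [mul_sub, sum_sub_distrib] at hmain
  rw [hQ] at hmain
  linarith

end push

end Pool.Agent.H41.FM
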