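import Pool.Agent.H41.FM.Core

set_option autoImplicit false
set_option maxHeartbeats 1000000

/-!
# Four moving points: the three regimes
-/

namespace Pool.Agent.H41.FM

open Finset

section core

variable {ι κ : Type*}

variable {G : F4} {J : Finset κ} {H : κ → F4} {I : Finset ι} {w : κ → ι → ℝ}
  {x y z t : κ → ι → Bool} {wg : ι → ℝ} {xg yg zg tg : ι → Bool}
  {d1 d2 d3 d4 La Lb Lc Ld : ℝ}

/-- prices at the fixed point `j` -/
lemma loc_sum (D : Dat G J H I w x y z t wg xg yg zg tg d1 d2 d3 d4 La Lb Lc Ld) {j : κ}
    (hj : j ∈ J) {zab zac zad zbd pa pb pc pd r : ℝ}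
    (hP : Pr (G false true true true) (G true false true true) (G true true false true)
      (G true true true false) (G true true true true)
      (H j true true false false) (H j true false true false) (H j true false false true)
      (H j false true true false) (H j false true false true) (H j false false true true)
      (H j true true true false - G true true true false)
      (H j true true false true - G true true false true)
      (H j true false true true - G true false true true)
      (H j false true true true - G false true true true)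
      (H j true true true true - G true true true true) zab zac zad zbd pa pb pc pd r) :
    ∑ T ∈ I, w j T * H j (x j T) (y j T) (z j T) (t j T) ≤
      (d1 * pa + d2 * pb + d3 * pc + d4 * pd + r * ∑ T ∈ I, w j T * iv (x j T && y j T)) +
        zab * ∑ T ∈ I, w j T * iv (x j T && y j T) + zac * ∑ T ∈ I, w j T * iv (x j T && z j T) +
        zad * ∑ T ∈ I, w j T * iv (x j T && t j T) +
        zbd * ∑ T ∈ I, w j T * iv (y j T && t j T) := by
  have h := pr_sum (D.hH j hj) hP I (w j) (D.w0 j hj) (x j) (y j) (z j) (t j)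
  rw [D.ma j hj, D.mb j hj, D.mc j hj, D.md j hj] at h
  refine h.trans (le_of_eq ?_)
  ring

lemma regime0 (D : Dat G J H I w x y z t wg xg yg zg tg d1 d2 d3 d4 La Lb Lc Ld)
    (hE : G true true true true ≤ G false true true true + G true false true true +
      G true true true false) :
    ∑ T ∈ I, wg T * G (xg T) (yg T) (zg T) (tg T) +
      ∑ j ∈ J, ∑ T ∈ I, w j T * H j (x j T) (y j T) (z j T) (t j T) ≤
      d1 * La + d2 * Lb + d3 * Lc + d4 * Ld := by
  obtain ⟨n1, n2, n3, n4, m1, m2, m3, m4, m5, m6⟩ := g_nonneg D.hG D.hGG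
  have h23 := D.d23
  refine assemble D (zab := 0) (zac := G true true true false)
    (zad := G true true true true - G true true true false - G false true true true)
    (zbd := G false true true true) (s := d2 - d3) (kap := 0) (le_refl _) n1 (by linarith) n4
    (by linarith) (by linarith) (by linarith) (le_refl _) (by linarith) (by linarith)
    (le_refl _) ⟨fun _ => 0, by simp, ?_⟩ (le_of_eq (by ring))
  intro j hj
  beta_reduce
  obtain ⟨pa, pb, pc, pd, hP, hb⟩ := loc0 (d1 := d1) (d2 := d2) (d3 := d3) (d4 := d4)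
    (hd_of D.hG (D.hH j hj) (D.hGH j hj)) hE
  have h := loc_sum D hj hP
  linarith

lemma regime1 (D : Dat G J H I w x y z t wg xg yg zg tg d1 d2 d3 d4 La Lb Lc Ld)
    {E : ℝ} (hE : G true true true true = G false true true true + G true false true true +
      G true true true false + E) (hE0 : 0 ≤ E) {j0 : κ} (hj0 : j0 ∈ J)
    (hmax : ∀ j ∈ J, ∑ T ∈ I, w j T * iv (x j T && y j T) ≤
      ∑ T ∈ I, w j0 T * iv (x j0 T && y j0 T))
    (hQ : d3 ≤ ∑ T ∈ I, w j0 T * iv (x j0 T && y j0 T)) :
    ∑ T ∈ I, wg T * G (xg T) (yg T) (zg T) (tg T) +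
      ∑ j ∈ J, ∑ T ∈ I, w j T * H j (x j T) (y j T) (z j T) (t j T) ≤
      d1 * La + d2 * Lb + d3 * Lc + d4 * Ld := by
  classical
  obtain ⟨n1, n2, n3, n4, m1, m2, m3, m4, m5, m6⟩ := g_nonneg D.hG D.hGG
  have hQ2 : ∑ T ∈ I, w j0 T * iv (x j0 T && y j0 T) ≤ d2 := by
    rw [← D.mb j0 hj0]
    apply sum_le_sum
    intro T hT
    apply mul_le_mul_of_nonneg_left _ (D.w0 j0 hj0 T hT)
    cases x j0 T <;> cases y j0 T <;> simp
  obtain ⟨s, hs⟩ : ∃ s : ℝ, s = (∑ T ∈ I, w j0 T * iv (x j0 T && y j0 T)) - d3 := ⟨_, rfl⟩
  have hs' : ∑ T ∈ I, w j0 T * iv (x j0 T && y j0 T) = d3 + s := by rw [hs]; ring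
  have hs0 : 0 ≤ s := by rw [hs]; linarith
  refine assemble D (zab := G true true true false + E) (zac := 0)
    (zad := G true false true true)
    (zbd := G false true true true) (s := s)
    (kap := s * G true true true false + E * (d3 + s - d4)) (by linarith) (le_refl _) n3 n4
    (by linarith) (by linarith) (by linarith) (le_refl _) (by linarith) hs0
    (by rw [hs]; linarith)
    ⟨fun j => if j = j0 then s * G true true true false + E * (d3 + s - d4) else 0, ?_, ?_⟩ ?_
  · rw [sum_ite_eq', if_pos hj0]
  · intro j hj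
    beta_reduce
    have hHd := hd_of D.hG (D.hH j hj) (D.hGH j hj)
    by_cases hjj : j = j0
    · subst hjj
      rw [if_pos rfl]
      obtain ⟨pa, pb, pc, pd, r, hP, hb⟩ := loc1F (d1 := d1) (d2 := d2) (d3 := d3) (d4 := d4)
        (s := s) hHd hE hE0 n1
      have h := loc_sum D hj hP
      have e : r * ∑ T ∈ I, w j T * iv (x j T && y j T) = (d3 + s) * r := by
        rw [hs']; ring
      linarith
    · rw [if_neg hjj]
      obtain ⟨pa, pb, pc, pd, r, hr, hP, hb⟩ := loc1 (d1 := d1) (d2 := d2) (d3 := d3) (d4 := d4)
        (s := s) hHd hE hE0 n4 n3 n1 hs0 D.d34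
      have h := loc_sum D hj hP
      have e : r * ∑ T ∈ I, w j T * iv (x j T && y j T) ≤ (d3 + s) * r := by
        have := mul_le_mul_of_nonneg_left ((hmax j hj).trans (le_of_eq hs')) hr
        linarith
      linarith
  · rw [hE]
    apply le_of_eq
    ring

lemma regime2 (D : Dat G J H I w x y z t wg xg yg zg tg d1 d2 d3 d4 La Lb Lc Ld)
    {E : ℝ} (hE : G true true true true = G false true true true + G true false true true +
      G true true true false + E) (hE0 : 0 ≤ E)
    (hQ : ∀ j ∈ J, ∑ T ∈ I, w j T * iv (x j T && y j T) ≤ d3) :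
    ∑ T ∈ I, wg T * G (xg T) (yg T) (zg T) (tg T) +
      ∑ j ∈ J, ∑ T ∈ I, w j T * H j (x j T) (y j T) (z j T) (t j T) ≤
      d1 * La + d2 * Lb + d3 * Lc + d4 * Ld := by
  obtain ⟨n1, n2, n3, n4, m1, m2, m3, m4, m5, m6⟩ := g_nonneg D.hG D.hGG
  have h34 := D.d34
  have h23 := D.d23
  obtain ⟨e1, e2, he1, he2, hee, hs⟩ : ∃ e1 e2 : ℝ, 0 ≤ e1 ∧ 0 ≤ e2 ∧
      e1 * (d3 - d4) = e2 * (d2 - d3) ∧ e1 + e2 = E := by
    rcases eq_or_lt_of_le (h34.trans h23) with h | h
    · refine ⟨E, 0, hE0, le_refl _, ?_, by ring⟩
      have : d3 - d4 = 0 := by linarith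
      rw [this]; ring
    · have h0 : 0 < d2 - d4 := by linarith
      refine ⟨E * (d2 - d3) / (d2 - d4), E * (d3 - d4) / (d2 - d4), ?_, ?_, ?_, ?_⟩
      · exact div_nonneg (mul_nonneg hE0 (by linarith)) h0.le
      · exact div_nonneg (mul_nonneg hE0 (by linarith)) h0.le
      · field_simp
      · field_simp
        ring
  have hE' : G true true true true = G false true true true + G true false true true +
      G true true true false + e1 + e2 := by rw [hE, ← hs]; ring
  refine assemble D (zab := G true true true false + e1) (zac := 0)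
    (zad := G true false true true + e2)
    (zbd := G false true true true) (s := 0) (kap := 0) (by linarith) (le_refl _) (by linarith) n4
    (by linarith) (by linarith) (by linarith) (le_refl _) (by linarith) (le_refl _)
    (by linarith) ⟨fun _ => 0, by simp, ?_⟩ ?_
  · intro j hj
    beta_reduce
    obtain ⟨pa, pb, pc, pd, r, hr, hP, hb⟩ := loc2 (d1 := d1) (d2 := d2) (d3 := d3) (d4 := d4)
      (hd_of D.hG (D.hH j hj) (D.hGH j hj)) hE' he1 he2 n4 n3 n1 h34 h23 hee
    have h := loc_sum D hj hP
    have e : r * ∑ T ∈ I, w j T * iv (x j T && y j T) ≤ d3 * r := by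
      have := mul_le_mul_of_nonneg_left (hQ j hj) hr
      linarith
    linarith
  · rw [hE']
    apply le_of_eq
    linear_combination hee

/-- the numerical core -/
theorem core_ineq (D : Dat G J H I w x y z t wg xg yg zg tg d1 d2 d3 d4 La Lb Lc Ld)
    (hJ : J.Nonempty) :
    ∑ T ∈ I, wg T * G (xg T) (yg T) (zg T) (tg T) +
      ∑ j ∈ J, ∑ T ∈ I, w j T * H j (x j T) (y j T) (z j T) (t j T) ≤
      d1 * La + d2 * Lb + d3 * Lc + d4 * Ld := by
  rcases le_total (G true true true true) (G false true true true + G true false true true +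
      G true true true false) with h | h
  · exact regime0 D h
  · obtain ⟨E, hE⟩ : ∃ E : ℝ, E = G true true true true - (G false true true true +
      G true false true true + G true true true false) := ⟨_, rfl⟩
    have hE1 : G true true true true = G false true true true + G true false true true +
      G true true true false + E := by rw [hE]; ring
    have hE0 : 0 ≤ E := by rw [hE]; linarith
    obtain ⟨j0, hj0, hmax⟩ := exists_max_image J
      (fun j => ∑ T ∈ I, w j T * iv (x j T && y j T)) hJ
    rcases le_total d3 (∑ T ∈ I, w j0 T * iv (x j0 T && y j0 T)) with h' | h'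
    · exact regime1 D hE1 hE0 hj0 hmax h'
    · exact regime2 D hE1 hE0 (fun j hj => (hmax j hj).trans h')

end core

end Pool.Agent.H41.FM
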