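import Pool.Agent.H41.FM.Regimes
import Pool.Agent.H20.ThreeNum

set_option autoImplicit false
set_option maxHeartbeats 1000000

/-!
# Four moving points: subsets of the moving points as vectors of bits
-/

namespace Pool.Agent.H41.FM

open Finset

universe u

variable {W : Type u} [DecidableEq W]

/-- the subset of the moving points with the given bits -/
def bs (a b c d : W) (p q r s : Bool) : Finset W :=
  (if p = true then {a} else ∅) ∪ ((if q = true then {b} else ∅) ∪
    ((if r = true then {c} else ∅) ∪ (if s = true then {d} else ∅)))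

lemma mem_bs {a b c d t : W} {p q r s : Bool} : t ∈ bs a b c d p q r s ↔
    (p = true ∧ t = a) ∨ (q = true ∧ t = b) ∨ (r = true ∧ t = c) ∨ (s = true ∧ t = d) := by
  unfold bs
  cases p <;> cases q <;> cases r <;> cases s <;> simp <;> tauto

lemma bs_or {a b c d : W} {p q r s p' q' r' s' : Bool} :
    bs a b c d p q r s ∪ bs a b c d p' q' r' s' =
      bs a b c d (p || p') (q || q') (r || r') (s || s') := by
  ext t
  simp only [mem_union, mem_bs, Bool.or_eq_true]
  tauto

/-- distinct moving points outside `A` -/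
structure Dist (A : Finset W) (a b c d : W) : Prop where
  ab : a ≠ b
  ac : a ≠ c
  ad : a ≠ d
  bc : b ≠ c
  bd : b ≠ d
  cd : c ≠ d
  a : a ∉ A
  b : b ∉ A
  c : c ∉ A
  d : d ∉ A

lemma bs_disj {A : Finset W} {a b c d : W} (D : Dist A a b c d) {p q r s p' q' r' s' : Bool}
    (h1 : (p && p') = false) (h2 : (q && q') = false) (h3 : (r && r') = false)
    (h4 : (s && s') = false) : Disjoint (bs a b c d p q r s) (bs a b c d p' q' r' s') := by
  obtain ⟨ab, ac, ad, bc, bd, cd, -, -, -, -⟩ := D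
  rw [disjoint_left]
  intro t k1 k2
  rw [mem_bs] at k1 k2
  rcases k1 with ⟨k1, e1⟩ | ⟨k1, e1⟩ | ⟨k1, e1⟩ | ⟨k1, e1⟩ <;>
    rcases k2 with ⟨k2, e2⟩ | ⟨k2, e2⟩ | ⟨k2, e2⟩ | ⟨k2, e2⟩
  · rw [k1, k2] at h1; simp at h1
  · exact ab (e1.symm.trans e2)
  · exact ac (e1.symm.trans e2)
  · exact ad (e1.symm.trans e2)
  · exact ab (e2.symm.trans e1)
  · rw [k1, k2] at h2; simp at h2
  · exact bc (e1.symm.trans e2)
  · exact bd (e1.symm.trans e2)
  · exact ac (e2.symm.trans e1)
  · exact bc (e2.symm.trans e1)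
  · rw [k1, k2] at h3; simp at h3
  · exact cd (e1.symm.trans e2)
  · exact ad (e2.symm.trans e1)
  · exact bd (e2.symm.trans e1)
  · exact cd (e2.symm.trans e1)
  · rw [k1, k2] at h4; simp at h4

lemma bs_sub {a b c d : W} {p q r s : Bool} : bs a b c d p q r s ⊆ {a, b, c, d} := by
  intro t ht
  rw [mem_bs] at ht
  simp only [mem_insert, mem_singleton]
  tauto

lemma bs_disjA {A : Finset W} {a b c d : W} (D : Dist A a b c d) {p q r s : Bool} {P : Finset W}
    (hP : P ⊆ A) : Disjoint P (bs a b c d p q r s) := by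
  obtain ⟨-, -, -, -, -, -, ha, hb, hc, hd⟩ := D
  rw [disjoint_left]
  intro t k1 k2
  rw [mem_bs] at k2
  rcases k2 with ⟨-, e⟩ | ⟨-, e⟩ | ⟨-, e⟩ | ⟨-, e⟩
  · exact ha (e ▸ hP k1)
  · exact hb (e ▸ hP k1)
  · exact hc (e ▸ hP k1)
  · exact hd (e ▸ hP k1)

/-- the standing hypotheses on `h` -/
structure Hyp (h : Finset W → ℝ) (X : Finset W) : Prop where
  h2 : ∀ P Q R : Finset W, Disjoint P Q → Disjoint P R → Disjoint Q R → P ∪ Q ∪ R ⊆ X →
    h (P ∪ Q) + h (P ∪ R) + h (Q ∪ R) ≤ h (P ∪ Q ∪ R) + h P + h Q + h R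
  h0 : ∀ S, S ⊆ X → S.card ≤ 2 → h S = 0

/-- `h` at `P` together with moving points -/
def HP (h : Finset W → ℝ) (P : Finset W) (a b c d : W) : F4 :=
  fun p q r s => h (P ∪ bs a b c d p q r s)

lemma dj_iff {r1 r2 r3 r4 x1 x2 x3 x4 y1 y2 y3 y4 : Bool} :
    dj r1 r2 r3 r4 x1 x2 x3 x4 y1 y2 y3 y4 = false ↔
      ((r1 && x1) = false ∧ (r1 && y1) = false ∧ (x1 && y1) = false) ∧
      ((r2 && x2) = false ∧ (r2 && y2) = false ∧ (x2 && y2) = false) ∧
      ((r3 && x3) = false ∧ (r3 && y3) = false ∧ (x3 && y3) = false) ∧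
      ((r4 && x4) = false ∧ (r4 && y4) = false ∧ (x4 && y4) = false) := by
  simp only [dj, Bool.or_eq_false_iff]
  tauto

lemma HP_sub {A : Finset W} {a b c d : W} {p q r s : Bool} {P : Finset W}
    (hP : P ⊆ A) : P ∪ bs a b c d p q r s ⊆ A ∪ {a, b, c, d} :=
  union_subset_union hP bs_sub

lemma crs_HP {h : Finset W → ℝ} {A : Finset W} {a b c d : W} (D : Dist A a b c d)
    (Hh : Hyp h (A ∪ {a, b, c, d})) {P : Finset W} (hP : P ⊆ A) :
    Crs (HP h ∅ a b c d) (HP h P a b c d) := by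
  intro r1 r2 r3 r4 x1 x2 x3 x4 y1 y2 y3 y4 hdj
  rw [dj_iff] at hdj
  obtain ⟨⟨a1, a2, a3⟩, ⟨b1, b2, b3⟩, ⟨c1, c2, c3⟩, ⟨d1, d2, d3⟩⟩ := hdj
  have key := Hh.h2 (P ∪ bs a b c d r1 r2 r3 r4) (bs a b c d x1 x2 x3 x4)
    (bs a b c d y1 y2 y3 y4)
    (disjoint_union_left.2 ⟨bs_disjA D hP, bs_disj D a1 b1 c1 d1⟩)
    (disjoint_union_left.2 ⟨bs_disjA D hP, bs_disj D a2 b2 c2 d2⟩)
    (bs_disj D a3 b3 c3 d3)
    (union_subset (union_subset (HP_sub hP) (bs_sub.trans subset_union_right))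
      (bs_sub.trans subset_union_right))
  simp only [union_assoc, bs_or, Bool.or_assoc] at key
  simp only [HP, empty_union]
  linarith

lemma h_small {h : Finset W → ℝ} {X : Finset W} (Hh : Hyp h X) {S : Finset W} (hS : S ⊆ X)
    {i j : W} (hij : S ⊆ {i, j}) : h S = 0 :=
  Hh.h0 S hS ((card_le_card hij).trans card_le_two)

lemma z2_HP {h : Finset W → ℝ} {A : Finset W} {a b c d : W}
    (Hh : Hyp h (A ∪ {a, b, c, d})) : Z2 (HP h ∅ a b c d) := by
  have e : ∀ p q r s : Bool, ∀ i j : W, bs a b c d p q r s ⊆ {i, j} →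
      HP h ∅ a b c d p q r s = 0 := by
    intro p q r s i j hij
    apply h_small Hh (HP_sub (empty_subset _)) (i := i) (j := j)
    rw [empty_union]
    exact hij
  refine ⟨⟨?_, ?_, ?_, ?_, ?_⟩, ?_, ?_, ?_, ?_, ?_, ?_⟩
  · exact e _ _ _ _ a b (by intro t ht; rw [mem_bs] at ht; simp at ht)
  · exact e _ _ _ _ a b (by intro t ht; rw [mem_bs] at ht; simp at ht; simp [ht])
  · exact e _ _ _ _ a b (by intro t ht; rw [mem_bs] at ht; simp at ht; simp [ht])
  · exact e _ _ _ _ c b (by intro t ht; rw [mem_bs] at ht; simp at ht; simp [ht])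
  · exact e _ _ _ _ d b (by intro t ht; rw [mem_bs] at ht; simp at ht; simp [ht])
  · exact e _ _ _ _ a b (by intro t ht; rw [mem_bs] at ht; simpa using ht)
  · exact e _ _ _ _ a c (by intro t ht; rw [mem_bs] at ht; simpa using ht)
  · exact e _ _ _ _ a d (by intro t ht; rw [mem_bs] at ht; simpa using ht)
  · exact e _ _ _ _ b c (by intro t ht; rw [mem_bs] at ht; simpa using ht)
  · exact e _ _ _ _ b d (by intro t ht; rw [mem_bs] at ht; simpa using ht)
  · exact e _ _ _ _ c d (by intro t ht; rw [mem_bs] at ht; simpa using ht)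

lemma z1_HP {h : Finset W → ℝ} {A : Finset W} {a b c d i : W}
    (Hh : Hyp h (A ∪ {a, b, c, d})) (hi : i ∈ A) : Z1 (HP h {i} a b c d) := by
  have e : ∀ p q r s : Bool, ∀ j : W, bs a b c d p q r s ⊆ {j} →
      HP h {i} a b c d p q r s = 0 := by
    intro p q r s j hij
    apply h_small Hh (HP_sub (singleton_subset_iff.2 hi)) (i := i) (j := j)
    exact union_subset (by simp) (hij.trans (by simp))
  refine ⟨?_, ?_, ?_, ?_, ?_⟩
  · exact e _ _ _ _ a (by intro t ht; rw [mem_bs] at ht; simp at ht)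
  · exact e _ _ _ _ a (by intro t ht; rw [mem_bs] at ht; simpa using ht)
  · exact e _ _ _ _ b (by intro t ht; rw [mem_bs] at ht; simpa using ht)
  · exact e _ _ _ _ c (by intro t ht; rw [mem_bs] at ht; simpa using ht)
  · exact e _ _ _ _ d (by intro t ht; rw [mem_bs] at ht; simpa using ht)

/-- the function at the last fixed point -/
def HN (h : Finset W → ℝ) (A : Finset W) (a b c d : W) : F4 :=
  fun p q r s => HP h A a b c d (!p) (!q) (!r) (!s) - HP h A a b c d true true true true +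
    (HP h A a b c d true true true true - HP h A a b c d false true true true) * iv p +
    (HP h A a b c d true true true true - HP h A a b c d true false true true) * iv q +
    (HP h A a b c d true true true true - HP h A a b c d true true false true) * iv r +
    (HP h A a b c d true true true true - HP h A a b c d true true true false) * iv s

lemma z1_HN (h : Finset W → ℝ) (A : Finset W) (a b c d : W) : Z1 (HN h A a b c d) := by
  constructor <;> simp [HN]

lemma bit_aux : ∀ r x y : Bool, (r && x) = false → (r && y) = false → (x && y) = false →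
    ((!(r || (x || y))) || (x || y)) = (!r) ∧ ((!(r || (x || y))) || x) = (!(r || y)) ∧
    ((!(r || (x || y))) || y) = (!(r || x)) ∧ ((!(r || (x || y))) && x) = false ∧
    ((!(r || (x || y))) && y) = false := by
  decide

lemma iv_aux : ∀ r x y : Bool, (r && x) = false → (r && y) = false → (x && y) = false →
    iv (r || (x || y)) + iv r - iv (r || x) - iv (r || y) = 0 := by
  intro r x y
  cases r <;> cases x <;> cases y <;> simp

lemma crs_HN {h : Finset W → ℝ} {A : Finset W} {a b c d : W} (D : Dist A a b c d)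
    (Hh : Hyp h (A ∪ {a, b, c, d})) :
    Crs (HP h ∅ a b c d) (HN h A a b c d) := by
  intro r1 r2 r3 r4 x1 x2 x3 x4 y1 y2 y3 y4 hdj
  have hdj' := hdj
  rw [dj_iff] at hdj'
  obtain ⟨⟨a1, a2, a3⟩, ⟨b1, b2, b3⟩, ⟨c1, c2, c3⟩, ⟨d1, d2, d3⟩⟩ := hdj'
  obtain ⟨f1, f2, f3, f4, f5⟩ := bit_aux r1 x1 y1 a1 a2 a3
  obtain ⟨g1, g2, g3, g4, g5⟩ := bit_aux r2 x2 y2 b1 b2 b3
  obtain ⟨k1, k2, k3, k4, k5⟩ := bit_aux r3 x3 y3 c1 c2 c3
  obtain ⟨l1, l2, l3, l4, l5⟩ := bit_aux r4 x4 y4 d1 d2 d3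
  have key := crs_HP D Hh (Subset.refl A) (!(r1 || (x1 || y1))) (!(r2 || (x2 || y2)))
    (!(r3 || (x3 || y3))) (!(r4 || (x4 || y4))) x1 x2 x3 x4 y1 y2 y3 y4
    (dj_iff.2 ⟨⟨f4, f5, a3⟩, ⟨g4, g5, b3⟩, ⟨k4, k5, c3⟩, ⟨l4, l5, d3⟩⟩)
  rw [f1, f2, f3, g1, g2, g3, k1, k2, k3, l1, l2, l3] at key
  refine key.trans (le_of_eq ?_)
  have v1 := iv_aux r1 x1 y1 a1 a2 a3
  have v2 := iv_aux r2 x2 y2 b1 b2 b3
  have v3 := iv_aux r3 x3 y3 c1 c2 c3
  have v4 := iv_aux r4 x4 y4 d1 d2 d3
  simp only [HN]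
  linear_combination
    -(HP h A a b c d true true true true - HP h A a b c d false true true true) * v1
    - (HP h A a b c d true true true true - HP h A a b c d true false true true) * v2
    - (HP h A a b c d true true true true - HP h A a b c d true true false true) * v3
    - (HP h A a b c d true true true true - HP h A a b c d true true true false) * v4

end Pool.Agent.H41.FM
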