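import Pool.Agent.H41.FM.Four
import Pool.Agent.H20.ThmThree

set_option autoImplicit false
set_option maxHeartbeats 1000000

/-!
# Four moving points: the theorem on curves
-/

namespace Pool.Agent.H41.FM

open Finset Pool.Agent.H20

universe u v w

section num

variable {W : Type w} [DecidableEq W]

theorem four_moving {h : Finset W → ℝ} {A M : Finset W} (hM : M.card = 4) (hdj : Disjoint M A)
    (Hh : Hyp h (A ∪ M)) {I : Finset (Finset W)} {cT : Finset W → ℝ} {lam : ℝ}
    (K : Col I cT A (A ∪ M) lam) : ∑ T ∈ I, cT T * h T ≤ lam * h (A ∪ M) := by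
  obtain ⟨a, ha, hamax⟩ := exists_max_image M (ev I cT A) (card_pos.1 (by omega))
  have h1 : (M.erase a).card = 3 := by rw [card_erase_of_mem ha]; omega
  obtain ⟨b, hb, hbmax⟩ := exists_max_image (M.erase a) (ev I cT A) (card_pos.1 (by omega))
  have h2 : ((M.erase a).erase b).card = 2 := by rw [card_erase_of_mem hb]; omega
  obtain ⟨c, hc, hcmax⟩ := exists_max_image ((M.erase a).erase b) (ev I cT A)
    (card_pos.1 (by omega))
  have h3 : (((M.erase a).erase b).erase c).card = 1 := by rw [card_erase_of_mem hc]; omega
  obtain ⟨d, hd⟩ := card_eq_one.1 h3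
  have hdm : d ∈ ((M.erase a).erase b).erase c := by rw [hd]; exact mem_singleton_self d
  simp only [mem_erase] at hb hc hdm
  have hMe : M = {a, b, c, d} := by
    apply Subset.antisymm
    · intro t ht
      simp only [mem_insert, mem_singleton]
      by_contra hcon
      push Not at hcon
      have : t ∈ ((M.erase a).erase b).erase c := by
        simp only [mem_erase]
        exact ⟨hcon.2.2.1, hcon.2.1, hcon.1, ht⟩
      rw [hd, mem_singleton] at this
      exact hcon.2.2.2 this
    · intro t ht
      simp only [mem_insert, mem_singleton] at ht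
      rcases ht with rfl | rfl | rfl | rfl
      · exact ha
      · exact hb.2
      · exact hc.2.2
      · exact hdm.2.2.2
  have hnot : ∀ t ∈ M, t ∉ A := fun t ht htA => disjoint_left.1 hdj ht htA
  have D : Dist A a b c d := ⟨fun h => hb.1 h.symm, fun h => hc.2.1 h.symm,
    fun h => hdm.2.2.1 h.symm, fun h => hc.1 h.symm, fun h => hdm.2.1 h.symm,
    fun h => hdm.1 h.symm, hnot a ha, hnot b hb.2, hnot c hc.2.2, hnot d hdm.2.2.2⟩
  have e1 := hamax b hb.2
  have e2 := hbmax c (mem_erase.2 ⟨hc.2.1, hc.2.2⟩)
  have e3 := hcmax d (mem_erase.2 ⟨hdm.2.1, mem_erase.2 ⟨hdm.2.2.1, hdm.2.2.2⟩⟩)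
  rw [hMe] at Hh K ⊢
  exact four_moving_ordered D Hh K e1 e2 e3

end num

section thm

variable {V W : Type w} [Fintype V] [Fintype W] [DecidableEq V] [DecidableEq W]
variable {k : Type u} {K : Type v} [Field k] [Field K] [Algebra k K] [IsAlgClosed k]

/-- An `F`-nef class is nonnegative on the curves along which all but at most four marks have
constant cross-ratios. -/
theorem deg_nonneg_four_moving (hK : IsCurveField k K) {f : Finset V → ℝ} (hs : IsSymm f)
    (hF : IsFNef f) {π : V → W} (hπ : Function.Surjective π) {p : W → K × K} (hp : IsPoint p)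
    (hW : 4 ≤ Fintype.card W) (H : Finset W) (hHc : Hᶜ.card ≤ 4)
    (hH : ConstCross k p (H : Set W)) : 0 ≤ deg k f π p := by
  classical
  have hs' := push_symm hs π
  have hF' := push_fnef hF hπ
  by_cases h6 : Fintype.card W ≤ 6
  · -- few marks: reduce to three moving points
    by_cases h3 : Hᶜ.card ≤ 3
    · exact deg_nonneg_three_moving hK hs hF hπ hp hW H h3 hH
    · -- `H` has at most two elements; any three marks have constant cross-ratios
      obtain ⟨H', hH'1, hH'2⟩ : ∃ H' : Finset W, H ⊆ H' ∧ H'.card = 3 := by
        have hle : H.card ≤ 3 := by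
          have := card_compl H
          omega
        exact exists_superset_card_eq hle (by omega)
      apply deg_nonneg_three_moving hK hs hF hπ hp hW H' (by rw [card_compl]; omega)
      intro i hi j hj l hl m hm hij hil him hjl hjm hlm
      exfalso
      have h4 : ({i, j, l, m} : Finset W).card = 4 := by
        rw [card_insert_of_notMem, card_insert_of_notMem, card_insert_of_notMem, card_singleton]
        · simpa using hlm
        · simp [hjl, hjm]
        · simp [hij, hil, him]
      have h5 : ({i, j, l, m} : Finset W) ⊆ H' := by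
        intro t ht
        simp only [mem_insert, mem_singleton] at ht
        rcases ht with rfl | rfl | rfl | rfl
        · exact mem_coe.1 hi
        · exact mem_coe.1 hj
        · exact mem_coe.1 hl
        · exact mem_coe.1 hm
      have := card_le_card h5
      omega
  -- shrink `H` so that its complement has exactly four elements
  obtain ⟨M, hM1, hM2⟩ : ∃ M : Finset W, Hᶜ ⊆ M ∧ M.card = 4 :=
    exists_superset_card_eq hHc (by omega)
  have hmemH : ∀ t, t ∉ M → t ∈ (H : Set W) := by
    intro t ht
    by_contra hcon
    apply ht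
    apply hM1
    rw [mem_compl]
    exact hcon
  obtain ⟨w0, hw0⟩ : ∃ w0, w0 ∉ M := by
    by_contra hcon
    push Not at hcon
    have h6 : Fintype.card W ≤ M.card := by
      rw [← card_univ]
      exact card_le_card fun t _ => hcon t
    omega
  apply deg_nonneg_of_bound hK hs hp (by omega) w0
  set F := push π f with hFdef
  set A := (Mᶜ).erase w0 with hAdef
  have hAcard : 2 ≤ A.card := by
    rw [hAdef, card_erase_of_mem (by rw [mem_compl]; exact hw0), card_compl, hM2]
    omega
  have hAM : A ∪ M = univ.erase w0 := by
    ext t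
    rw [mem_union, hAdef, mem_erase, mem_erase, mem_compl]
    constructor
    · rintro (h | h)
      · exact ⟨h.1, mem_univ _⟩
      · exact ⟨fun h' => hw0 (h' ▸ h), mem_univ _⟩
    · rintro ⟨h, _⟩
      by_cases ht : t ∈ M
      · exact Or.inr ht
      · exact Or.inl ⟨h, ht⟩
  have hdj : Disjoint M A := by
    rw [disjoint_left]
    intro t ht htA
    rw [hAdef, mem_erase, mem_compl] at htA
    exact htA.2 ht
  have Hh : Hyp (fun T => s0 F T - Q2 F T) (A ∪ M) := by
    refine ⟨?_, ?_⟩
    · intro A B C hAB hAC hBC hsub
      have hQ := Q2_identity F hAB hAC hBC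
      change s0 F (A ∪ B) - Q2 F (A ∪ B) + (s0 F (A ∪ C) - Q2 F (A ∪ C)) +
          (s0 F (B ∪ C) - Q2 F (B ∪ C)) ≤
        s0 F (A ∪ B ∪ C) - Q2 F (A ∪ B ∪ C) + (s0 F A - Q2 F A) + (s0 F B - Q2 F B) +
          (s0 F C - Q2 F C)
      have hz : s0 F ∅ = 0 := s0_small (by simp)
      rcases A.eq_empty_or_nonempty with rfl | hA
      · simp only [empty_union, hz, Q2_empty]; linarith
      rcases B.eq_empty_or_nonempty with rfl | hB
      · simp only [empty_union, union_empty, hz, Q2_empty]; linarith
      rcases C.eq_empty_or_nonempty with rfl | hC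
      · simp only [union_empty, hz, Q2_empty]; linarith
      have h := s0_F hs' hF' w0 hA hB hC hAB hAC hBC
        (by
          intro h0
          have := hsub h0
          rw [hAM] at this
          exact notMem_erase _ _ this)
      linarith
    · intro S _ hS
      change s0 F S - Q2 F S = 0
      rcases Nat.lt_or_ge 1 S.card with h1 | h1
      · obtain ⟨a, b, hab, rfl⟩ := card_eq_two.mp (by omega : S.card = 2)
        rw [Q2_pair F hab, sub_self]
      · rcases S.eq_empty_or_nonempty with rfl | ⟨a, ha⟩
        · rw [s0_small (by simp), Q2_empty, sub_self]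
        · have : S = {a} := by
            apply eq_singleton_iff_unique_mem.mpr
            refine ⟨ha, fun b hb => ?_⟩
            exact card_le_one.mp h1 b hb a ha
          rw [this, s0_small (by simp), Q2_single, sub_self]
  have Kc : Col (splits W w0) (fun T => (degD k p T : ℝ)) A (A ∪ M) (degPsi k p w0 : ℝ) := by
    refine ⟨fun T => by exact_mod_cast degD_nonneg p T, ?_, ?_, hAcard, ?_⟩
    · intro T hT
      rw [mem_splits] at hT
      rw [hAM]
      intro x hx
      rw [mem_erase]
      exact ⟨fun h => hT.1 (h ▸ hx), mem_univ _⟩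
    · intro i hi j hj hij
      rw [hAM] at hi hj
      have := keel_pair hK hp (by omega : 3 ≤ Fintype.card W) (ne_of_mem_erase hi)
        (ne_of_mem_erase hj) hij
      exact_mod_cast this
    · intro T hT hc h2 a haA
      by_contra haT
      have hc' : degD k p T ≠ 0 := by exact_mod_cast hc
      obtain ⟨i, hi, j, hj, hij⟩ := one_lt_card.mp (by omega : 1 < (T ∩ A).card)
      rw [mem_inter] at hi hj
      have mem_of : ∀ t, t ∈ A → t ∈ (H : Set W) ∧ t ≠ w0 := by
        intro t ht
        rw [hAdef, mem_erase, mem_compl] at ht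
        exact ⟨hmemH t ht.2, ht.1⟩
      have hw0H : w0 ∈ (H : Set W) := hmemH w0 hw0
      rw [mem_splits] at hT
      obtain ⟨P0, hP0⟩ := exists_place_of_degD_ne_zero hc'
      have hle := localD_le P0 p hi.1 hj.1 haT hT.1 hij (mem_of a haA).2
      have hia : i ≠ a := fun h => haT (h ▸ hi.1)
      have hja : j ≠ a := fun h => haT (h ▸ hj.1)
      have hz := constCross_ord hp hH P0 (mem_of i hi.2).1 (mem_of j hj.2).1 (mem_of a haA).1
        hw0H hij hia (mem_of i hi.2).2 hja (mem_of j hj.2).2 (mem_of a haA).2
      rw [hz, max_self] at hle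
      have := localD_nonneg P0 p T
      omega
  have hmain := four_moving hM2 hdj Hh Kc
  rw [hAM] at hmain
  exact hmain

end thm

end Pool.Agent.H41.FM
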