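import Pool.Agent.H41.FM.Merge

set_option autoImplicit false
set_option maxHeartbeats 1000000

/-!
# Curves with moving marks of at most four types
-/

namespace Pool.Agent.H41.FM

open Finset Pool.Agent.H20 Pool.Agent.H20.MG

universe u v

section count

lemma sum_ge (J : Finset ℕ) (h : ∀ x ∈ J, 1 ≤ x) : J.card * (J.card + 1) ≤ 2 * ∑ x ∈ J, x := by
  induction J using Finset.induction_on_max with
  | empty => simp
  | insert a s hlt ih =>
    have ha : a ∉ s := fun h' => lt_irrefl _ (hlt a h')
    have hs : ∀ x ∈ s, 1 ≤ x := fun x hx => h x (Finset.mem_insert_of_mem hx)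
    have h1 : s ⊆ Finset.Ico 1 a := by
      intro x hx
      rw [Finset.mem_Ico]
      exact ⟨hs x hx, hlt x hx⟩
    have h2 := Finset.card_le_card h1
    rw [Nat.card_Ico] at h2
    have h3 : 1 ≤ a := h a (Finset.mem_insert_self _ _)
    have h4 := ih hs
    rw [Finset.sum_insert ha, Finset.card_insert_of_notMem ha]
    have h5 : s.card + 1 ≤ a := by omega
    have h6 : (s.card + 1) * (s.card + 1 + 1) = s.card * (s.card + 1) + 2 * (s.card + 1) := by ring
    rw [h6]
    linarith

/-- A function which is invariant under the permutations of a set `G` of marks. -/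
def SymOn {V : Type} [DecidableEq V] (f : Finset V → ℝ) (G : Finset V) : Prop :=
  ∀ A B : Finset V, A \ G = B \ G → (A ∩ G).card = (B ∩ G).card → f A = f B

/-- Among five disjoint unions of parts with places in `M` two have the same type. -/
def NoFive {V W : Type} [Fintype V] [DecidableEq V] [DecidableEq W] (f : Finset V → ℝ)
    (π : V → W) (M : Finset W) : Prop :=
  ∀ A : Fin 5 → Finset W, (∀ a, (A a).Nonempty) → (∀ a, A a ⊆ M) →
    (∀ a b, a ≠ b → Disjoint (A a) (A b)) →
    ∃ a b, a ≠ b ∧ SameType f (fib π (A a)) (fib π (A b))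

theorem noFive_of_symOn {V W : Type} [Fintype V] [Fintype W] [DecidableEq V] [DecidableEq W]
    {f : Finset V → ℝ} {G : Finset V} (hG : SymOn f G) {π : V → W}
    (hπ : Function.Surjective π) {M : Finset W}
    (hb : 2 * (fib π M ∩ G).card < (5 - (fib π M \ G).card) * (6 - (fib π M \ G).card)) :
    NoFive f π M := by
  classical
  intro A hne hM hdis
  by_contra hcon
  push Not at hcon
  set P : Fin 5 → Finset V := fun a => fib π (A a) with hP
  have hPM : ∀ a, P a ⊆ fib π M := by
    intro a v hv
    rw [mem_fib] at hv ⊢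
    exact hM a hv
  have hPne : ∀ a, (P a).Nonempty := fun a => fib_nonempty hπ (hne a)
  have hPd : ∀ a b, a ≠ b → Disjoint (P a) (P b) := fun a b hab => fib_disjoint π (hdis a b hab)
  set I : Finset (Fin 5) := Finset.univ.filter (fun a => P a ⊆ G) with hI
  -- the sets which are not contained in `G`
  have h1 : Iᶜ.card ≤ (fib π M \ G).card := by
    have hex : ∀ a : Fin 5, ∃ v : V, a ∈ Iᶜ → v ∈ P a ∧ v ∈ fib π M \ G := by
      intro a
      by_cases ha : P a ⊆ G
      · obtain ⟨v, _⟩ := hPne a
        exact ⟨v, fun h => absurd (by rw [hI, Finset.mem_filter]; exact ⟨Finset.mem_univ _, ha⟩)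
          (Finset.mem_compl.mp h)⟩
      · rw [Finset.not_subset] at ha
        obtain ⟨v, hv, hv'⟩ := ha
        exact ⟨v, fun _ => ⟨hv, Finset.mem_sdiff.mpr ⟨hPM a hv, hv'⟩⟩⟩
    choose v hv using hex
    apply Finset.card_le_card_of_injOn v
    · intro a ha
      exact (hv a ha).2
    · intro a ha b hb' hab
      by_contra hne'
      have := Finset.disjoint_left.mp (hPd a b hne') (hv a ha).1
      apply this
      rw [hab]
      exact (hv b hb').1
  have h2 : I.card + Iᶜ.card = 5 := by
    rw [Finset.card_add_card_compl]; simp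
  -- distinct sizes
  have h3 : ∀ a ∈ I, ∀ b ∈ I, (P a).card = (P b).card → a = b := by
    intro a ha b hb' hab
    by_contra hne'
    rw [hI, Finset.mem_filter] at ha hb'
    apply hcon a b hne'
    intro S hSa hSb
    apply hG
    · have e : ∀ X : Finset V, X ⊆ G → (S ∪ X) \ G = S \ G := by
        intro X hX
        ext x
        simp only [Finset.mem_sdiff, Finset.mem_union]
        constructor
        · rintro ⟨h | h, h'⟩
          · exact ⟨h, h'⟩
          · exact absurd (hX h) h'
        · rintro ⟨h, h'⟩
          exact ⟨Or.inl h, h'⟩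
      rw [e _ ha.2, e _ hb'.2]
    · have e : ∀ X : Finset V, X ⊆ G → Disjoint S X →
          ((S ∪ X) ∩ G).card = (S ∩ G).card + X.card := by
        intro X hX hd
        rw [Finset.union_inter_distrib_right, Finset.card_union_of_disjoint]
        · rw [Finset.inter_eq_left.mpr hX]
        · exact Finset.disjoint_of_subset_left Finset.inter_subset_left
            (Finset.disjoint_of_subset_right Finset.inter_subset_left hd)
      rw [e _ ha.2 hSa, e _ hb'.2 hSb]
      rw [hab]
  have h4 : (I.image (fun a => (P a).card)).card = I.card :=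
    Finset.card_image_of_injOn (fun a ha b hb' hab => h3 a ha b hb' hab)
  have h5 := sum_ge (I.image (fun a => (P a).card))
    (by
      intro x hx
      rw [Finset.mem_image] at hx
      obtain ⟨a, _, rfl⟩ := hx
      exact Finset.card_pos.mpr (hPne a))
  rw [h4, Finset.sum_image (fun a ha b hb' hab => h3 a ha b hb' hab)] at h5
  have h6 : ∑ a ∈ I, (P a).card ≤ (fib π M ∩ G).card := by
    rw [← Finset.card_biUnion (fun a _ b _ hab => hPd a b hab)]
    apply Finset.card_le_card
    intro x hx
    rw [Finset.mem_biUnion] at hx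
    obtain ⟨a, ha, hx⟩ := hx
    rw [hI, Finset.mem_filter] at ha
    exact Finset.mem_inter.2 ⟨hPM a hx, ha.2 hx⟩
  have h7 : 5 - (fib π M \ G).card ≤ I.card := by omega
  have h8 : (5 - (fib π M \ G).card) * (6 - (fib π M \ G).card) ≤ I.card * (I.card + 1) := by
    rcases Nat.lt_or_ge 4 (fib π M \ G).card with h | h
    · have : 5 - (fib π M \ G).card = 0 := by omega
      rw [this]
      simp
    · have : 6 - (fib π M \ G).card = (5 - (fib π M \ G).card) + 1 := by omega
      rw [this]
      exact Nat.mul_le_mul h7 (by omega)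
  omega

end count

section curves

variable {k : Type u} {K : Type v} [Field k] [Field K] [Algebra k K] [IsAlgClosed k]

lemma constN_of_curve {m : ℕ} {p : Fin m → K × K} (hp : IsPoint p) {H : Finset (Fin m)}
    (hH : ConstCross k p (H : Set (Fin m))) :
    ConstN (fun T : Finset (Fin m) => if 2 ≤ T.card ∧ T.card + 2 ≤ Fintype.card (Fin m)
      then (degD k p T : ℝ) else 0) H := by
  intro T hT h2
  by_contra hcon
  beta_reduce at hT
  obtain ⟨i, hi, j, hj, hij⟩ := one_lt_card.mp (by omega : 1 < (T ∩ H).card)
  obtain ⟨a, ha, b, hb, hab⟩ := one_lt_card.mp (by omega : 1 < (H \ T).card)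
  rw [mem_inter] at hi hj
  rw [mem_sdiff] at ha hb
  have hc' : degD k p T ≠ 0 := by
    intro h0
    apply hT
    rw [h0]
    simp
  obtain ⟨P0, hP0⟩ := exists_place_of_degD_ne_zero hc'
  have hle := localD_le P0 p hi.1 hj.1 ha.2 hb.2 hij hab
  have hia : i ≠ a := fun h => ha.2 (h ▸ hi.1)
  have hja : j ≠ a := fun h => ha.2 (h ▸ hj.1)
  have hib : i ≠ b := fun h => hb.2 (h ▸ hi.1)
  have hjb : j ≠ b := fun h => hb.2 (h ▸ hj.1)
  have hz := constCross_ord hp hH P0 (mem_coe.2 hi.2) (mem_coe.2 hj.2) (mem_coe.2 ha.1)
    (mem_coe.2 hb.1) hij hia hib hja hjb hab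
  rw [hz, max_self] at hle
  have := localD_nonneg P0 p T
  omega

theorem deg_nonneg_four_types {n m : ℕ} {f : Finset (Fin n) → ℝ} (hs : IsSymm f) (hF : IsFNef f)
    (hK : IsCurveField k K) (hm : 4 ≤ m) {π : Fin n → Fin m} (hπ : Function.Surjective π)
    {p : Fin m → K × K} (hp : IsPoint p) {H : Finset (Fin m)}
    (hc : ConstCross k p (H : Set (Fin m))) (h5 : NoFive f π Hᶜ) : 0 ≤ deg k f π p := by
  classical
  have hW : 4 ≤ Fintype.card (Fin m) := by rw [Fintype.card_fin]; omega
  rcases Nat.lt_or_ge m 7 with hm7 | hm7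
  · -- any three marks have constant cross-ratios
    obtain ⟨H', hH'⟩ : ∃ H' : Finset (Fin m), H'.card = 3 := by
      obtain ⟨H', _, h⟩ := exists_subset_card_eq (s := (univ : Finset (Fin m))) (n := 3)
        (by rw [card_univ, Fintype.card_fin]; omega)
      exact ⟨H', h⟩
    apply deg_nonneg_four_moving hK hs hF hπ hp hW H'
      (by rw [card_compl, Fintype.card_fin]; omega)
    intro i hi j hj l hl q hq hij hil hiq hjl hjq hlq
    exfalso
    have h4 : ({i, j, l, q} : Finset (Fin m)).card = 4 := by
      rw [card_insert_of_notMem, card_insert_of_notMem, card_insert_of_notMem, card_singleton]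
      · simpa using hlq
      · simp [hjl, hjq]
      · simp [hij, hil, hiq]
    have h5 : ({i, j, l, q} : Finset (Fin m)) ⊆ H' := by
      intro t ht
      simp only [mem_insert, mem_singleton] at ht
      rcases ht with rfl | rfl | rfl | rfl
      · exact mem_coe.1 hi
      · exact mem_coe.1 hj
      · exact mem_coe.1 hl
      · exact mem_coe.1 hq
    have := card_le_card h5
    omega
  · rw [deg_eq_LD f hπ p (by simp; omega)]
    apply main_ind (ncls_of_curve hK hp (by simp; omega)) (by simp; omega) (constN_of_curve hp hc)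
      (nrm_EF hs hF) _ π (le_refl _)
    intro φ hφ hcard
    -- five occupied places
    obtain ⟨J, hJ, hJ5⟩ := exists_subset_card_eq hcard
    have e : (J : Type) ≃ Fin 5 := equivFinOfCardEq hJ5
    have hval : ∀ a : Fin 5, ∃ v : Fin n, φ (π v) = ((e.symm a : J) : Fin m) := by
      intro a
      have h1 := hJ (e.symm a).2
      rw [mem_sdiff, mem_image] at h1
      obtain ⟨⟨v, _, hv⟩, _⟩ := h1
      exact ⟨v, hv⟩
    have hnH : ∀ a : Fin 5, ((e.symm a : J) : Fin m) ∉ H := fun a =>
      (mem_sdiff.1 (hJ (e.symm a).2)).2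
    set A : Fin 5 → Finset (Fin m) := fun a =>
      univ.filter (fun x => φ x = ((e.symm a : J) : Fin m)) with hA
    have hmemA : ∀ a x, x ∈ A a ↔ φ x = ((e.symm a : J) : Fin m) := by
      intro a x
      rw [hA]
      simp
    have hfibA : ∀ a, fib π (A a) = fib (φ ∘ π) {((e.symm a : J) : Fin m)} := by
      intro a
      ext v
      rw [mem_fib, mem_fib, hmemA, mem_singleton]
      rfl
    have hdA : ∀ a b, a ≠ b → Disjoint (A a) (A b) := by
      intro a b hab
      rw [disjoint_left]
      intro x hx hx'
      rw [hmemA] at hx hx'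
      apply hab
      apply e.symm.injective
      apply Subtype.ext
      rw [← hx, ← hx']
    obtain ⟨a, b, hab, hS⟩ := h5 A
      (by
        intro a
        obtain ⟨v, hv⟩ := hval a
        exact ⟨π v, (hmemA a _).mpr hv⟩)
      (by
        intro a x hx
        rw [mem_compl]
        intro hxH
        apply hnH a
        rw [← (hmemA a x).1 hx]
        exact hφ x hxH)
      hdA
    refine ⟨((e.symm a : J) : Fin m), hJ (e.symm a).2, ((e.symm b : J) : Fin m),
      hJ (e.symm b).2, ?_, ?_⟩
    · intro h
      exact hab (e.symm.injective (Subtype.ext h))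
    · rw [← hfibA, ← hfibA]
      intro S hSa hSb
      obtain ⟨va, hva⟩ := hval a
      obtain ⟨vb, hvb⟩ := hval b
      have hmva : va ∈ fib π (A a) := mem_fib.mpr ((hmemA a _).mpr hva)
      have hmvb : vb ∈ fib π (A b) := mem_fib.mpr ((hmemA b _).mpr hvb)
      have hdis : Disjoint (fib π (A a)) (fib π (A b)) := fib_disjoint π (hdA a b hab)
      rw [disjoint_left] at hdis
      rw [nrm_of (x := va) (y := vb) (mem_union_right _ hmva)
          (by
            rw [mem_union]
            rintro (h | h)
            · exact disjoint_left.mp hSb h hmvb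
            · exact hdis h hmvb),
        nrm_of (x := vb) (y := va) (mem_union_right _ hmvb)
          (by
            rw [mem_union]
            rintro (h | h)
            · exact disjoint_left.mp hSa h hmva
            · exact hdis hmva h)]
      exact hS S hSa hSb

end curves

end Pool.Agent.H41.FM
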